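import Pool.Agent.R623.AF.Stm

/-!
# AF-EXPR (helper657 for helper623): a number whose `p`-th power is close to one
-/

set_option autoImplicit false

namespace Pool.Agent.R623.AF

theorem EXPR : S_EXPR := by
  intro p ζ hp h
  have hp0 : (p : ℂ) ≠ 0 := by exact_mod_cast (by omega : p ≠ 0)
  have hw : ζ ^ p ≠ 0 := by
    intro h0
    rw [h0] at h
    norm_num at h
  set Λ := Complex.log (ζ ^ p) with hΛ
  have hexp : Complex.exp Λ = ζ ^ p := Complex.exp_log hw
  have hn : ‖Λ‖ ≤ 2 * ‖ζ ^ p - 1‖ := by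
    have h1 := Complex.norm_log_one_add_half_le_self h
    rw [show 1 + (ζ ^ p - 1) = ζ ^ p by ring] at h1
    have h2 := norm_nonneg (ζ ^ p - 1)
    rw [hΛ]
    linarith
  have h1 : (ζ * Complex.exp (-(Λ / p))) ^ p = 1 := by
    rw [mul_pow, ← Complex.exp_nat_mul, ← hexp, ← Complex.exp_add]
    have : Λ + (p : ℂ) * -(Λ / p) = 0 := by
      field_simp
      ring
    rw [this, Complex.exp_zero]
  have : NeZero p := ⟨by omega⟩
  obtain ⟨k, hk, hk'⟩ := (Complex.isPrimitiveRoot_exp p (by omega)).eq_pow_of_pow_eq_one h1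
  refine ⟨k, Λ, hk, hn, ?_, hexp⟩
  have h2 : ζ = (ζ * Complex.exp (-(Λ / p))) * Complex.exp (Λ / p) := by
    rw [mul_assoc, ← Complex.exp_add, neg_add_cancel, Complex.exp_zero, mul_one]
  rw [h2, ← hk', ← Complex.exp_nat_mul, ← Complex.exp_add]
  congr 1
  ring

end Pool.Agent.R623.AF
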