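import Mathlib

namespace Pool.Agent.R657.VA

/-- Two permutation representations of a group `T` whose orbits are represented by families with
the same index set and the same point stabilisers are isomorphic, by an isomorphism matching the
representatives. -/
theorem match_perm {T X Y J : Type*} [Group T] (ρ : T →* Equiv.Perm X) (σ : T →* Equiv.Perm Y)
    (x : J → X) (y : J → Y)
    (hx : ∀ z : X, ∃ j, ∃ t : T, ρ t (x j) = z)
    (hy : ∀ z : Y, ∃ j, ∃ t : T, σ t (y j) = z)
    (hx' : ∀ j j' (t t' : T), ρ t (x j) = ρ t' (x j') → j = j')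
    (hy' : ∀ j j' (t t' : T), σ t (y j) = σ t' (y j') → j = j')
    (hs : ∀ j (t : T), ρ t (x j) = x j ↔ σ t (y j) = y j) :
    ∃ e : X ≃ Y, (∀ (t : T) z, e (ρ t z) = σ t (e z)) ∧ ∀ j, e (x j) = y j := by
  have hs2 : ∀ j (t t' : T), ρ t (x j) = ρ t' (x j) ↔ σ t (y j) = σ t' (y j) := by
    intro j t t'
    have h1 : ρ t (x j) = ρ t' (x j) ↔ ρ (t'⁻¹ * t) (x j) = x j := by
      rw [map_mul, map_inv, Equiv.Perm.mul_apply, Equiv.Perm.inv_eq_iff_eq]
      
    have h2 : σ t (y j) = σ t' (y j) ↔ σ (t'⁻¹ * t) (y j) = y j := by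
      rw [map_mul, map_inv, Equiv.Perm.mul_apply, Equiv.Perm.inv_eq_iff_eq]
      
    rw [h1, h2, hs]
  choose jx tx hxz using hx
  choose jy ty hyz using hy
  have keyF : ∀ j t, σ (tx (ρ t (x j))) (y (jx (ρ t (x j)))) = σ t (y j) := by
    intro j t
    have h1 := hxz (ρ t (x j))
    have h2 : jx (ρ t (x j)) = j := hx' _ _ _ _ h1
    rw [h2] at h1 ⊢
    exact (hs2 j _ _).1 h1
  have keyG : ∀ j t, ρ (ty (σ t (y j))) (x (jy (σ t (y j)))) = ρ t (x j) := by
    intro j t
    have h1 := hyz (σ t (y j))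
    have h2 : jy (σ t (y j)) = j := hy' _ _ _ _ h1
    rw [h2] at h1 ⊢
    exact (hs2 j _ _).2 h1
  refine ⟨⟨fun z => σ (tx z) (y (jx z)), fun z => ρ (ty z) (x (jy z)), ?_, ?_⟩, ?_, ?_⟩
  · intro z
    change ρ (ty (σ (tx z) (y (jx z)))) (x (jy (σ (tx z) (y (jx z))))) = z
    rw [keyG, hxz]
  · intro z
    change σ (tx (ρ (ty z) (x (jy z)))) (y (jx (ρ (ty z) (x (jy z))))) = z
    rw [keyF, hyz]
  · intro t z
    change σ (tx (ρ t z)) (y (jx (ρ t z))) = σ t (σ (tx z) (y (jx z)))
    conv_lhs => rw [← hxz z]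
    rw [← Equiv.Perm.mul_apply, ← map_mul, keyF, map_mul, Equiv.Perm.mul_apply]
  · intro j
    change σ (tx (x j)) (y (jx (x j))) = y j
    have := keyF j 1
    simpa using this

section induced

variable {G : Type*} [Group G] (A : Subgroup G) [hA : A.Normal]

/-- The cocycle of the left regular action on the cosets of `A` with respect to the chosen
transversal. -/
noncomputable def coc (g : G) (x : G ⧸ A) : A :=
  ⟨(g • x).out⁻¹ * (g * x.out), by
    rw [← QuotientGroup.eq]
    rw [QuotientGroup.out_eq']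
    conv_lhs => rw [← QuotientGroup.out_eq' x]
    rfl⟩

omit hA in
theorem coc_mul (g h : G) (x : G ⧸ A) : coc A (g * h) x = coc A g (h • x) * coc A h x := by
  apply Subtype.ext
  change ((g * h) • x).out⁻¹ * (g * h * x.out) =
    ((g • h • x).out⁻¹ * (g * (h • x).out)) * ((h • x).out⁻¹ * (h * x.out))
  rw [mul_smul]
  group

omit hA in
theorem coc_one (x : G ⧸ A) : coc A 1 x = 1 := by
  apply Subtype.ext
  change ((1 : G) • x).out⁻¹ * (1 * x.out) = 1
  rw [one_smul]; group

theorem smul_eq_self_iff (g : G) (x : G ⧸ A) : g • x = x ↔ g ∈ A := by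
  induction x using QuotientGroup.induction_on with
  | H z =>
    change ((g * z : G) : G ⧸ A) = (z : G ⧸ A) ↔ g ∈ A
    rw [eq_comm, QuotientGroup.eq]
    constructor
    · intro h
      have := hA.conj_mem _ h z
      simpa [mul_assoc] using this
    · intro h
      have := hA.conj_mem _ h z⁻¹
      simpa [mul_assoc] using this

theorem coc_of_mem {g : G} (hg : g ∈ A) (x : G ⧸ A) :
    (coc A g x : G) = x.out⁻¹ * (g * x.out) := by
  change (g • x).out⁻¹ * (g * x.out) = _
  rw [(smul_eq_self_iff A g x).2 hg]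

/-- For an element of the abelian normal subgroup `A` the cocycle at `h • x` is the cocycle at `x`
of the conjugate. -/
theorem coc_conj (hab : ∀ a ∈ A, ∀ b ∈ A, a * b = b * a) {g : G} (hg : g ∈ A) (h : G)
    (x : G ⧸ A) : coc A g (h • x) = coc A (h⁻¹ * g * h) x := by
  apply Subtype.ext
  have hg' : h⁻¹ * g * h ∈ A := by
    have := hA.conj_mem _ hg h⁻¹
    simpa using this
  rw [coc_of_mem A hg, coc_of_mem A hg']
  have hb := (coc A h x).2
  have hc : (coc A h x : G) = (h • x).out⁻¹ * (h * x.out) := rfl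
  set b : G := (coc A h x : G) with hbdef
  have h1 : (h • x).out = h * x.out * b⁻¹ := by rw [hc]; group
  rw [h1]
  have h2 : x.out⁻¹ * (h⁻¹ * g * h) * x.out ∈ A := by
    have := hA.conj_mem _ hg' x.out⁻¹
    simpa using this
  have h3 := hab b hb _ h2
  have h4 : (h * x.out * b⁻¹)⁻¹ * (g * (h * x.out * b⁻¹)) =
      b * (x.out⁻¹ * (h⁻¹ * g * h) * x.out) * b⁻¹ := by group
  rw [h4, h3]
  group

/-- Value of an integer valued homomorphism at the cocycle. -/
noncomputable def val (f : A →* Multiplicative ℤ) (g : G) (x : G ⧸ A) : ℤ :=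
  Multiplicative.toAdd (f (coc A g x))

omit hA in
theorem val_mul (f : A →* Multiplicative ℤ) (g h : G) (x : G ⧸ A) :
    val A f (g * h) x = val A f g (h • x) + val A f h x := by
  unfold val
  rw [coc_mul, map_mul, toAdd_mul]

omit hA in
theorem val_one (f : A →* Multiplicative ℤ) (x : G ⧸ A) : val A f 1 x = 0 := by
  unfold val
  rw [coc_one, map_one, toAdd_one]

theorem val_zpow (f : A →* Multiplicative ℤ) {d : G} (hd : d ∈ A) (n : ℤ) (x : G ⧸ A) :
    val A f (d ^ n) x = n * val A f d x := by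
  have h : coc A (d ^ n) x = (coc A d x) ^ n := by
    apply Subtype.ext
    rw [coc_of_mem A (A.zpow_mem hd n), SubgroupClass.coe_zpow, coc_of_mem A hd]
    have := (MulAut.conj (x.out⁻¹)).toMonoidHom.map_zpow d n
    simpa [mul_assoc] using this
  unfold val
  rw [h, map_zpow, toAdd_zpow, smul_eq_mul]

/-- The permutation representation induced from `f : A → ℤ`, with weights on an auxiliary set. -/
@[reducible] noncomputable def indAction {Y : Type*} (f : A →* Multiplicative ℤ) (w : Y → ℤ) :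
    MulAction G (((G ⧸ A) × Y) × ℤ) where
  smul g z := ((g • z.1.1, z.1.2), z.2 + w z.1.2 * val A f g z.1.1)
  one_smul := by
    rintro ⟨⟨x, y⟩, r⟩
    change (((1 : G) • x, y), r + w y * val A f 1 x) = ((x, y), r)
    rw [val_one, one_smul]; simp
  mul_smul := by
    rintro g h ⟨⟨x, y⟩, r⟩
    change (((g * h) • x, y), r + w y * val A f (g * h) x) =
      ((g • h • x, y), (r + w y * val A f h x) + w y * val A f g (h • x))
    rw [val_mul, mul_smul]
    congr 1
    ring

/-- The permutation representation as a homomorphism. -/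
noncomputable def ind {Y : Type*} (f : A →* Multiplicative ℤ) (w : Y → ℤ) :
    G →* Equiv.Perm (((G ⧸ A) × Y) × ℤ) :=
  letI := indAction A (Y := Y) f w
  MulAction.toPermHom G (((G ⧸ A) × Y) × ℤ)

theorem ind_apply {Y : Type*} (f : A →* Multiplicative ℤ) (w : Y → ℤ) (g : G) (x : G ⧸ A) (y : Y)
    (r : ℤ) : ind A f w g ((x, y), r) = ((g • x, y), r + w y * val A f g x) := rfl

end induced

/-- Translations of the fibres of `B × ℤ`. -/
def shift (B : Type*) : Multiplicative ℤ →* Equiv.Perm (B × ℤ) where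
  toFun k := ⟨fun z => (z.1, z.2 + k.toAdd), fun z => (z.1, z.2 - k.toAdd),
    fun z => by simp, fun z => by simp⟩
  map_one' := by ext z <;> simp
  map_mul' k l := by
    apply Equiv.ext
    rintro ⟨b, r⟩
    change (b, r + Multiplicative.toAdd (k * l)) = (b, (r + Multiplicative.toAdd l) +
      Multiplicative.toAdd k)
    rw [toAdd_mul]
    congr 1
    ring

theorem shift_apply {B : Type*} (k : Multiplicative ℤ) (z : B × ℤ) :
    shift B k z = (z.1, z.2 + k.toAdd) := rfl

theorem shift_ind_comm {G : Type*} [Group G] (A : Subgroup G) [A.Normal] {Y : Type*}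
    (f : A →* Multiplicative ℤ) (w : Y → ℤ) (g : G) (k : Multiplicative ℤ) :
    Commute (ind A f w g) (shift _ k) := by
  apply Equiv.ext
  rintro ⟨⟨x, y⟩, r⟩
  change ((g • x, y), (r + k.toAdd) + w y * val A f g x) =
    ((g • x, y), (r + w y * val A f g x) + k.toAdd)
  congr 1
  ring

end Pool.Agent.R657.VA
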