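import Mathlib
import Pool.Agent.R657.AmalgVA1

namespace Pool.Agent.R657.VA

/-- A group is virtually abelian if it has an abelian subgroup of finite index. -/
def VirtAbelian (G : Type*) [Group G] : Prop :=
  ∃ K : Subgroup G, K.FiniteIndex ∧ ∀ a ∈ K, ∀ b ∈ K, a * b = b * a

/-- The group of permutations of `B × ℤ` commuting with all translations of the fibres. -/
def TG (B : Type*) : Subgroup (Equiv.Perm (B × ℤ)) :=
  Subgroup.centralizer (Set.range (shift B))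

theorem TG_shift {B : Type*} (π : TG B) (k : Multiplicative ℤ) (z : B × ℤ) :
    (π : Equiv.Perm (B × ℤ)) (shift B k z) = shift B k ((π : Equiv.Perm (B × ℤ)) z) := by
  have h := Subgroup.mem_centralizer_iff.1 π.2
  have h2 := h (shift B k) ⟨k, rfl⟩
  have h3 := congrArg (fun e : Equiv.Perm (B × ℤ) => e z) h2
  exact h3.symm

theorem TG_base {B : Type*} (π : TG B) (z : B × ℤ) :
    ((π : Equiv.Perm (B × ℤ)) z).1 = ((π : Equiv.Perm (B × ℤ)) (z.1, 0)).1 := by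
  have h : z = shift B (Multiplicative.ofAdd z.2) (z.1, 0) := by
    rw [shift_apply]; simp
  conv_lhs => rw [h, TG_shift]
  rfl

/-- The action of `TG B` on the base. -/
@[reducible] def baseAction (B : Type*) : MulAction (TG B) B where
  smul π b := ((π : Equiv.Perm (B × ℤ)) (b, 0)).1
  one_smul b := rfl
  mul_smul π π' b := by
    change ((π : Equiv.Perm (B × ℤ)) ((π' : Equiv.Perm (B × ℤ)) (b, 0))).1 =
      ((π : Equiv.Perm (B × ℤ)) (((π' : Equiv.Perm (B × ℤ)) (b, 0)).1, 0)).1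
    rw [TG_base]

theorem virtAbelian_TG (B : Type*) [Finite B] : VirtAbelian (TG B) := by
  let _ := baseAction B
  let φ : TG B →* Equiv.Perm B := MulAction.toPermHom (TG B) B
  refine ⟨φ.ker, inferInstance, ?_⟩
  have hsh : ∀ π ∈ φ.ker, ∀ z : B × ℤ, ∃ k : Multiplicative ℤ,
      (π : Equiv.Perm (B × ℤ)) z = shift B k z := by
    intro π hπ z
    have h1 : φ π = 1 := hπ
    have h2 : ((π : Equiv.Perm (B × ℤ)) (z.1, 0)).1 = z.1 :=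
      congrArg (fun e : Equiv.Perm B => e z.1) h1
    have h3 : ((π : Equiv.Perm (B × ℤ)) z).1 = z.1 := by rw [TG_base, h2]
    refine ⟨Multiplicative.ofAdd (((π : Equiv.Perm (B × ℤ)) z).2 - z.2), ?_⟩
    rw [shift_apply]
    apply Prod.ext
    · exact h3
    · simp
  intro a ha b hb
  apply Subtype.ext
  apply Equiv.ext
  intro z
  obtain ⟨k, hk⟩ := hsh a ha z
  obtain ⟨l, hl⟩ := hsh b hb z
  change (a : Equiv.Perm (B × ℤ)) ((b : Equiv.Perm (B × ℤ)) z) =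
    (b : Equiv.Perm (B × ℤ)) ((a : Equiv.Perm (B × ℤ)) z)
  rw [hk, hl, TG_shift, TG_shift, hk, hl]
  rw [← Equiv.Perm.mul_apply, ← Equiv.Perm.mul_apply, ← map_mul, ← map_mul, mul_comm]

/-- A canonical choice of representatives of an equivalence relation with a prescribed
representative `b`. -/
theorem exists_reps {X : Type*} (s : Setoid X) (b : X) :
    ∃ R : X → X, R b = b ∧ (∀ x, s (R x) x) ∧ ∀ x y, s x y → R x = R y := by
  classical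
  refine ⟨fun x => if s x b then b else (Quotient.mk s x).out, ?_, ?_, ?_⟩
  · simp
  · intro x
    by_cases h : s x b
    · simp only [h, if_true]
      exact s.symm h
    · simp only [h, if_false]
      exact Quotient.mk_out x
  · intro x y hxy
    by_cases h : s x b
    · have h' : s y b := s.trans (s.symm hxy) h
      simp only [h, h', if_true]
    · have h' : ¬ s y b := fun h' => h (s.trans hxy h')
      simp only [h, h', if_false]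
      rw [Quotient.sound hxy]

theorem key {G₀ G₁ G₂ : Type*} [Group G₀] [Group G₁] [Group G₂] (ι₁ : G₀ →* G₁) (ι₂ : G₀ →* G₂)
    (A₁ : Subgroup G₁) [A₁.Normal] [A₁.FiniteIndex] (A₂ : Subgroup G₂) [A₂.Normal]
    [A₂.FiniteIndex]
    (hab₁ : ∀ a ∈ A₁, ∀ b ∈ A₁, a * b = b * a) (hab₂ : ∀ a ∈ A₂, ∀ b ∈ A₂, a * b = b * a)
    (htr : ∀ g, ι₁ g ∈ A₁ ↔ ι₂ g ∈ A₂)
    (f₁ : A₁ →* Multiplicative ℤ) (f₂ : A₂ →* Multiplicative ℤ)
    (w₁ : G₂ ⧸ A₂ → ℤ) (w₂ : G₁ ⧸ A₁ → ℤ)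
    (hR : ∀ g h : G₀, ι₁ g ∈ A₁ → ∀ x y,
      w₁ (ι₂ h • y) * val A₁ f₁ (ι₁ g) x = w₂ (ι₁ h • x) * val A₂ f₂ (ι₂ g) y) :
    ∃ (ν₁ : G₁ →* TG ((G₁ ⧸ A₁) × (G₂ ⧸ A₂))) (ν₂ : G₂ →* TG ((G₁ ⧸ A₁) × (G₂ ⧸ A₂))),
      (∀ g, ν₁ (ι₁ g) = ν₂ (ι₂ g)) ∧ (∀ g, ν₁ g = 1 → g ∈ A₁) ∧ (∀ g, ν₂ g = 1 → g ∈ A₂) ∧
      ∀ (a₁ : A₁) (a₂ : A₂), ν₁ a₁ = ν₂ a₂ →
        w₁ ((1 : G₂) : G₂ ⧸ A₂) * Multiplicative.toAdd (f₁ a₁) =
          w₂ ((1 : G₁) : G₁ ⧸ A₁) * Multiplicative.toAdd (f₂ a₂) := by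
  classical
  -- equivalence relations
  let s₁ : Setoid (G₁ ⧸ A₁) := 
    { r := fun x y => ∃ g : G₀, ι₁ g • x = y
      iseqv := ⟨fun x => ⟨1, by simp⟩, by
        rintro x y ⟨g, rfl⟩
        exact ⟨g⁻¹, by simp⟩, by
        rintro x y z ⟨g, rfl⟩ ⟨h, rfl⟩
        exact ⟨h * g, by rw [map_mul, mul_smul]⟩⟩ }
  let s₂ : Setoid (G₂ ⧸ A₂) := 
    { r := fun x y => ∃ g : G₀, ι₂ g • x = y
      iseqv := ⟨fun x => ⟨1, by simp⟩, by
        rintro x y ⟨g, rfl⟩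
        exact ⟨g⁻¹, by simp⟩, by
        rintro x y z ⟨g, rfl⟩ ⟨h, rfl⟩
        exact ⟨h * g, by rw [map_mul, mul_smul]⟩⟩ }
  let s₀ : Setoid G₀ := QuotientGroup.leftRel (A₁.comap ι₁)
  have hs₀ : ∀ g h : G₀, s₀ g h ↔ ι₁ (g⁻¹ * h) ∈ A₁ := by
    intro g h
    change QuotientGroup.leftRel (A₁.comap ι₁) g h ↔ _
    rw [QuotientGroup.leftRel_apply]
    rfl
  obtain ⟨R₁, hR₁b, hR₁, hR₁'⟩ := exists_reps s₁ ((1 : G₁) : G₁ ⧸ A₁)
  obtain ⟨R₂, hR₂b, hR₂, hR₂'⟩ := exists_reps s₂ ((1 : G₂) : G₂ ⧸ A₂)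
  obtain ⟨R₀, hR₀b, hR₀, hR₀'⟩ := exists_reps s₀ (1 : G₀)
  have hfix₁ : ∀ {g h : G₀}, s₀ g h → ∀ x : G₁ ⧸ A₁, ι₁ g • x = ι₁ h • x := by
    intro g h hgh x
    have h1 := (smul_eq_self_iff A₁ (ι₁ (g⁻¹ * h)) x).2 ((hs₀ g h).1 hgh)
    calc ι₁ g • x = ι₁ g • ι₁ (g⁻¹ * h) • x := by rw [h1]
      _ = ι₁ h • x := by rw [← mul_smul, ← map_mul]; simp
  have hfix₂ : ∀ {g h : G₀}, s₀ g h → ∀ x : G₂ ⧸ A₂, ι₂ g • x = ι₂ h • x := by
    intro g h hgh x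
    have h1 := (smul_eq_self_iff A₂ (ι₂ (g⁻¹ * h)) x).2 ((htr _).1 ((hs₀ g h).1 hgh))
    calc ι₂ g • x = ι₂ g • ι₂ (g⁻¹ * h) • x := by rw [h1]
      _ = ι₂ h • x := by rw [← mul_smul, ← map_mul]; simp
  -- the two permutation representations of `G₀ × ℤ`
  let B := (G₁ ⧸ A₁) × (G₂ ⧸ A₂)
  let ρ : G₀ × Multiplicative ℤ →* Equiv.Perm (B × ℤ) :=
    MonoidHom.noncommCoprod ((ind A₁ f₁ w₁).comp ι₁) (shift B)
      (fun g k => shift_ind_comm A₁ f₁ w₁ (ι₁ g) k)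
  let B' := (G₂ ⧸ A₂) × (G₁ ⧸ A₁)
  let σ : G₀ × Multiplicative ℤ →* Equiv.Perm (B' × ℤ) :=
    MonoidHom.noncommCoprod ((ind A₂ f₂ w₂).comp ι₂) (shift B')
      (fun g k => shift_ind_comm A₂ f₂ w₂ (ι₂ g) k)
  have hρ : ∀ g k x y r, ρ (g, k) ((x, y), r) =
      ((ι₁ g • x, y), (r + k.toAdd) + w₁ y * val A₁ f₁ (ι₁ g) x) := by
    intro g k x y r
    rfl
  have hσ : ∀ g k x y r, σ (g, k) ((y, x), r) =
      ((ι₂ g • y, x), (r + k.toAdd) + w₂ x * val A₂ f₂ (ι₂ g) y) := by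
    intro g k x y r
    rfl
  let J := {j : (G₁ ⧸ A₁) × (G₂ ⧸ A₂) × G₀ // R₁ j.1 = j.1 ∧ R₂ j.2.1 = j.2.1 ∧ R₀ j.2.2 = j.2.2}
  let xx : J → B × ℤ := fun j => ((j.1.1, ι₂ j.1.2.2 • j.1.2.1), 0)
  let yy : J → B' × ℤ := fun j => ((j.1.2.1, ι₁ j.1.2.2 • j.1.1), 0)
  have hRR₁ : ∀ x, R₁ (R₁ x) = R₁ x := fun x => hR₁' _ _ (hR₁ x)
  have hRR₂ : ∀ x, R₂ (R₂ x) = R₂ x := fun x => hR₂' _ _ (hR₂ x)
  have hRR₀ : ∀ x, R₀ (R₀ x) = R₀ x := fun x => hR₀' _ _ (hR₀ x)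
  obtain ⟨e, he, hexy⟩ := match_perm ρ σ xx yy (by
    rintro ⟨⟨x, y⟩, r⟩
    obtain ⟨g, hg⟩ := hR₁ x
    obtain ⟨g', hg'⟩ := hR₂ y
    refine ⟨⟨(R₁ x, R₂ y, R₀ g'), hRR₁ x, hRR₂ y, hRR₀ g'⟩,
      (g, Multiplicative.ofAdd (r - w₁ y * val A₁ f₁ (ι₁ g) (R₁ x))), ?_⟩
    change ρ (g, _) ((R₁ x, ι₂ (R₀ g') • R₂ y), 0) = _
    rw [hρ, hg, hfix₂ (hR₀ g'), hg']
    simp only [zero_add, toAdd_ofAdd, sub_add_cancel]) (by
    rintro ⟨⟨y, x⟩, r⟩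
    obtain ⟨g, hg⟩ := hR₂ y
    obtain ⟨g', hg'⟩ := hR₁ x
    refine ⟨⟨(R₁ x, R₂ y, R₀ g'), hRR₁ x, hRR₂ y, hRR₀ g'⟩,
      (g, Multiplicative.ofAdd (r - w₂ x * val A₂ f₂ (ι₂ g) (R₂ y))), ?_⟩
    change σ (g, _) ((R₂ y, ι₁ (R₀ g') • R₁ x), 0) = _
    rw [hσ, hg, hfix₁ (hR₀ g'), hg']
    simp only [zero_add, toAdd_ofAdd, sub_add_cancel]) (by
    rintro ⟨⟨p, q, h⟩, hp, hq, hh⟩ ⟨⟨p', q', h'⟩, hp', hq', hh'⟩ ⟨g, k⟩ ⟨g', k'⟩ heq
    change ρ (g, k) ((p, ι₂ h • q), 0) = ρ (g', k') ((p', ι₂ h' • q'), 0) at heq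
    rw [hρ, hρ] at heq
    simp only [Prod.mk.injEq] at heq
    obtain ⟨⟨h1, h2⟩, -⟩ := heq
    have hpp : p = p' := by
      change R₁ p = p at hp
      change R₁ p' = p' at hp'
      rw [← hp, ← hp']
      refine hR₁' _ _ ⟨g'⁻¹ * g, ?_⟩
      rw [map_mul, mul_smul, h1, ← mul_smul, ← map_mul]
      simp
    have hqq : q = q' := by
      change R₂ q = q at hq
      change R₂ q' = q' at hq'
      rw [← hq, ← hq']
      refine hR₂' _ _ ⟨h'⁻¹ * h, ?_⟩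
      rw [map_mul, mul_smul, h2, ← mul_smul, ← map_mul]
      simp
    subst hpp
    subst hqq
    have hh2 : h = h' := by
      change R₀ h = h at hh
      change R₀ h' = h' at hh'
      rw [← hh, ← hh']
      refine hR₀' _ _ ((hs₀ _ _).2 ((htr _).2 ?_))
      rw [← smul_eq_self_iff A₂ _ q, map_mul, mul_smul, ← h2, ← mul_smul, ← map_mul]
      simp
    subst hh2
    rfl) (by
    rintro ⟨⟨p, q, h⟩, hp, hq, hh⟩ ⟨⟨p', q', h'⟩, hp', hq', hh'⟩ ⟨g, k⟩ ⟨g', k'⟩ heq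
    change σ (g, k) ((q, ι₁ h • p), 0) = σ (g', k') ((q', ι₁ h' • p'), 0) at heq
    rw [hσ, hσ] at heq
    simp only [Prod.mk.injEq] at heq
    obtain ⟨⟨h1, h2⟩, -⟩ := heq
    have hqq : q = q' := by
      change R₂ q = q at hq
      change R₂ q' = q' at hq'
      rw [← hq, ← hq']
      refine hR₂' _ _ ⟨g'⁻¹ * g, ?_⟩
      rw [map_mul, mul_smul, h1, ← mul_smul, ← map_mul]
      simp
    have hpp : p = p' := by
      change R₁ p = p at hp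
      change R₁ p' = p' at hp'
      rw [← hp, ← hp']
      refine hR₁' _ _ ⟨h'⁻¹ * h, ?_⟩
      rw [map_mul, mul_smul, h2, ← mul_smul, ← map_mul]
      simp
    subst hpp
    subst hqq
    have hh2 : h = h' := by
      change R₀ h = h at hh
      change R₀ h' = h' at hh'
      rw [← hh, ← hh']
      refine hR₀' _ _ ((hs₀ _ _).2 ?_)
      rw [← smul_eq_self_iff A₁ _ p, map_mul, mul_smul, ← h2, ← mul_smul, ← map_mul]
      simp
    subst hh2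
    rfl) (by
    rintro ⟨⟨p, q, h⟩, hp, hq, hh⟩ ⟨g, k⟩
    change ρ (g, k) ((p, ι₂ h • q), 0) = ((p, ι₂ h • q), 0) ↔
      σ (g, k) ((q, ι₁ h • p), 0) = ((q, ι₁ h • p), 0)
    rw [hρ, hσ]
    simp only [Prod.mk.injEq, and_true]
    rw [smul_eq_self_iff, smul_eq_self_iff, ← htr]
    constructor
    · rintro ⟨h1, h2⟩
      refine ⟨h1, ?_⟩
      rw [← hR g h h1]
      exact h2
    · rintro ⟨h1, h2⟩
      refine ⟨h1, ?_⟩
      rw [hR g h h1]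
      exact h2)
  -- the homomorphisms
  have heρ : ∀ (g : G₀) z, e (ind A₁ f₁ w₁ (ι₁ g) z) = ind A₂ f₂ w₂ (ι₂ g) (e z) := by
    intro g z
    have := he (g, 1) z
    simpa [ρ, σ] using this
  have hesh : ∀ (k : Multiplicative ℤ) z, e (shift B k z) = shift B' k (e z) := by
    intro k z
    have := he (1, k) z
    simpa [ρ, σ] using this
  have hesh' : ∀ (k : Multiplicative ℤ) z, e.symm (shift B' k z) = shift B k (e.symm z) := by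
    intro k z
    rw [Equiv.symm_apply_eq, hesh, Equiv.apply_symm_apply]
  have hmem₁ : ∀ g, ind A₁ f₁ w₁ g ∈ TG B := by
    intro g
    rw [TG, Subgroup.mem_centralizer_iff]
    rintro _ ⟨k, rfl⟩
    exact (shift_ind_comm A₁ f₁ w₁ g k).symm
  let ν₁ : G₁ →* TG B := (ind A₁ f₁ w₁).codRestrict (TG B) hmem₁
  let c : Equiv.Perm (B' × ℤ) →* Equiv.Perm (B × ℤ) :=
    { toFun := fun π => (e.trans π).trans e.symm
      map_one' := by apply Equiv.ext; intro z; simp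
      map_mul' := by
        intro π π'
        apply Equiv.ext
        intro z
        simp [Equiv.Perm.mul_apply] }
  have hc : ∀ π z, c π z = e.symm (π (e z)) := fun π z => rfl
  have hmem₂ : ∀ g, (c.comp (ind A₂ f₂ w₂)) g ∈ TG B := by
    intro g
    rw [TG, Subgroup.mem_centralizer_iff]
    rintro _ ⟨k, rfl⟩
    apply Equiv.ext
    intro z
    change shift B k (e.symm (ind A₂ f₂ w₂ g (e z))) = e.symm (ind A₂ f₂ w₂ g (e (shift B k z)))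
    rw [hesh, ← hesh']
    congr 1
    have := shift_ind_comm A₂ f₂ w₂ g k
    exact (congrArg (fun π : Equiv.Perm (B' × ℤ) => π (e z)) this).symm
  let ν₂ : G₂ →* TG B := (c.comp (ind A₂ f₂ w₂)).codRestrict (TG B) hmem₂
  refine ⟨ν₁, ν₂, ?_, ?_, ?_, ?_⟩
  · intro g
    apply Subtype.ext
    apply Equiv.ext
    intro z
    change ind A₁ f₁ w₁ (ι₁ g) z = e.symm (ind A₂ f₂ w₂ (ι₂ g) (e z))
    rw [← heρ, Equiv.symm_apply_apply]
  · intro g hg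
    have h1 : ind A₁ f₁ w₁ g = 1 := congrArg Subtype.val hg
    have h2 := congrArg (fun π : Equiv.Perm (B × ℤ) =>
      (π ((((1 : G₁) : G₁ ⧸ A₁), ((1 : G₂) : G₂ ⧸ A₂)), 0)).1.1) h1
    exact (smul_eq_self_iff A₁ g _).1 h2
  · intro g hg
    have h1 : c (ind A₂ f₂ w₂ g) = 1 := congrArg Subtype.val hg
    have h2 : ind A₂ f₂ w₂ g = 1 := by
      apply Equiv.ext
      intro z
      have h3 := congrArg (fun π : Equiv.Perm (B × ℤ) => π (e.symm z)) h1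
      change e.symm (ind A₂ f₂ w₂ g (e (e.symm z))) = e.symm z at h3
      rw [Equiv.apply_symm_apply] at h3
      exact e.symm.injective h3
    have h2 := congrArg (fun π : Equiv.Perm (B' × ℤ) =>
      (π ((((1 : G₂) : G₂ ⧸ A₂), ((1 : G₁) : G₁ ⧸ A₁)), 0)).1.1) h2
    exact (smul_eq_self_iff A₂ g _).1 h2
  · intro a₁ a₂ h12
    have h1 : ind A₁ f₁ w₁ a₁ = c (ind A₂ f₂ w₂ a₂) := congrArg Subtype.val h12
    let j₀ : J := ⟨(((1 : G₁) : G₁ ⧸ A₁), ((1 : G₂) : G₂ ⧸ A₂), 1), hR₁b, hR₂b, hR₀b⟩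
    have hx₀ : xx j₀ = ((((1 : G₁) : G₁ ⧸ A₁), ((1 : G₂) : G₂ ⧸ A₂)), 0) := by
      change ((((1 : G₁) : G₁ ⧸ A₁), ι₂ 1 • ((1 : G₂) : G₂ ⧸ A₂)), (0 : ℤ)) = _
      rw [map_one, one_smul]
    have hy₀ : yy j₀ = ((((1 : G₂) : G₂ ⧸ A₂), ((1 : G₁) : G₁ ⧸ A₁)), 0) := by
      change ((((1 : G₂) : G₂ ⧸ A₂), ι₁ 1 • ((1 : G₁) : G₁ ⧸ A₁)), (0 : ℤ)) = _
      rw [map_one, one_smul]
    have h2 := congrArg (fun π : Equiv.Perm (B × ℤ) => e (π (xx j₀))) h1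
    change e (ind A₁ f₁ w₁ a₁ (xx j₀)) = e (e.symm (ind A₂ f₂ w₂ a₂ (e (xx j₀)))) at h2
    have hv₁ : val A₁ f₁ (a₁ : G₁) ((1 : G₁) : G₁ ⧸ A₁) = Multiplicative.toAdd (f₁ a₁) := by
      unfold val
      congr 2
      apply Subtype.ext
      rw [coc_of_mem A₁ a₁.2]
      have hm : (((1 : G₁) : G₁ ⧸ A₁)).out ∈ A₁ := by
        have : (((((1 : G₁) : G₁ ⧸ A₁)).out : G₁) : G₁ ⧸ A₁) = ((1 : G₁) : G₁ ⧸ A₁) :=
          QuotientGroup.out_eq' _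
        rw [eq_comm, QuotientGroup.eq] at this
        simpa using this
      rw [hab₁ _ a₁.2 _ hm]
      group
    have hv₂ : val A₂ f₂ (a₂ : G₂) ((1 : G₂) : G₂ ⧸ A₂) = Multiplicative.toAdd (f₂ a₂) := by
      unfold val
      congr 2
      apply Subtype.ext
      rw [coc_of_mem A₂ a₂.2]
      have hm : (((1 : G₂) : G₂ ⧸ A₂)).out ∈ A₂ := by
        have : (((((1 : G₂) : G₂ ⧸ A₂)).out : G₂) : G₂ ⧸ A₂) = ((1 : G₂) : G₂ ⧸ A₂) :=
          QuotientGroup.out_eq' _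
        rw [eq_comm, QuotientGroup.eq] at this
        simpa using this
      rw [hab₂ _ a₂.2 _ hm]
      group
    rw [Equiv.apply_symm_apply, hexy, hx₀, hy₀, ind_apply, ind_apply, hv₁, hv₂,
      (smul_eq_self_iff A₁ _ _).2 a₁.2, (smul_eq_self_iff A₂ _ _).2 a₂.2] at h2
    have h3 : ((((1 : G₁) : G₁ ⧸ A₁), ((1 : G₂) : G₂ ⧸ A₂)),
        0 + w₁ ((1 : G₂) : G₂ ⧸ A₂) * Multiplicative.toAdd (f₁ a₁)) =
        shift B (Multiplicative.ofAdd (w₁ ((1 : G₂) : G₂ ⧸ A₂) * Multiplicative.toAdd (f₁ a₁)))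
          (xx j₀) := by
      rw [hx₀]; rfl
    rw [h3, hesh, hexy, hy₀] at h2
    have h4 := congrArg Prod.snd h2
    change 0 + w₁ ((1 : G₂) : G₂ ⧸ A₂) * Multiplicative.toAdd (f₁ a₁) =
      0 + w₂ ((1 : G₁) : G₁ ⧸ A₁) * Multiplicative.toAdd (f₂ a₂) at h4
    simpa using h4

end Pool.Agent.R657.VA
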