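import Mathlib
import Pool.Agent.R657.AmalgVA2

namespace Pool.Agent.R657.VA

/-- A group is virtually cyclic if it has a cyclic subgroup of finite index. -/
def VirtCyclic (G : Type*) [Group G] : Prop :=
  ∃ C : Subgroup G, C.FiniteIndex ∧ IsCyclic C

/-- In a finitely generated abelian group a subgroup containing all `m`-th powers has finite
index. -/
theorem finiteIndex_of_pow {C : Type*} [CommGroup C] [Group.FG C] (H : Subgroup C) (m : ℕ)
    (hm : 0 < m) (h : ∀ c : C, c ^ m ∈ H) : H.FiniteIndex := by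
  have ht : IsMulTorsion (C ⧸ H) := by
    intro q
    induction q using QuotientGroup.induction_on with
    | H c =>
      rw [isOfFinOrder_iff_pow_eq_one]
      refine ⟨m, hm, ?_⟩
      rw [← QuotientGroup.mk_pow]
      exact (QuotientGroup.eq_one_iff _).2 (h c)
  have : Finite (C ⧸ H) := CommGroup.finite_of_fg_isMulTorsion _ ht
  exact Subgroup.finiteIndex_of_finite_quotient

/-- Coordinates on a finitely generated torsion-free abelian group. -/
theorem exists_coords (C : Type*) [CommGroup C] [Group.FG C]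
    (htf : ∀ c : C, ∀ n : ℤ, n ≠ 0 → c ^ n = 1 → c = 1) :
    ∃ n : ℕ, Nonempty (Additive C ≃+ (Fin n → ℤ)) := by
  have : Module.Finite ℤ (Additive C) := Module.Finite.iff_addGroup_fg.2 inferInstance
  have : Module.IsTorsionFree ℤ (Additive C) := by
    refine Module.IsTorsionFree.of_smul_eq_zero ?_
    intro r m h
    by_cases hr : r = 0
    · exact Or.inl hr
    · right
      exact htf (Additive.toMul m) r hr h
  let b := Module.Free.chooseBasis ℤ (Additive C)
  let e := b.equivFun
  let k := Fintype.equivFin (Module.Free.ChooseBasisIndex ℤ (Additive C))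
  exact ⟨_, ⟨(e.trans (LinearEquiv.funCongrLeft ℤ ℤ k.symm)).toAddEquiv⟩⟩

/-- In a finitely generated torsion-free abelian group every nontrivial element `c` is an `m`-th
power, `m ≠ 0`, with a functional taking the value `m` at `c`. -/
theorem exists_functional (C : Type*) [CommGroup C] [Group.FG C]
    (htf : ∀ c : C, ∀ n : ℤ, n ≠ 0 → c ^ n = 1 → c = 1) (c : C) (hc : c ≠ 1) :
    ∃ (m : ℤ) (φ : C →* Multiplicative ℤ) (b : C), m ≠ 0 ∧ φ c = Multiplicative.ofAdd m ∧
      b ^ m = c := by
  obtain ⟨n, ⟨e⟩⟩ := exists_coords C htf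
  let v : Fin n → ℤ := e (Additive.ofMul c)
  let I : Ideal ℤ := Ideal.span (Set.range v)
  let m : ℤ := Submodule.IsPrincipal.generator I
  have hmI : m ∈ I := Submodule.IsPrincipal.generator_mem I
  have hdvd : ∀ i, m ∣ v i := by
    intro i
    have : v i ∈ I := Ideal.subset_span ⟨i, rfl⟩
    exact (Submodule.IsPrincipal.mem_iff_generator_dvd I).1 this
  obtain ⟨u, hu⟩ := (Submodule.mem_span_range_iff_exists_fun ℤ).1 hmI
  choose w hw using hdvd
  have hm0 : m ≠ 0 := by
    intro h0
    apply hc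
    have : v = 0 := by
      funext i
      rw [hw i, h0]; simp
    have h1 : e (Additive.ofMul c) = 0 := this
    have h2 : Additive.ofMul c = 0 := by
      rw [← map_zero e] at h1
      exact e.injective h1
    exact h2
  let L : (Fin n → ℤ) →+ ℤ := 
    { toFun := fun x => ∑ i, u i * x i
      map_zero' := by simp
      map_add' := by
        intro x y
        simp [mul_add, Finset.sum_add_distrib] }
  let φ : C →* Multiplicative ℤ :=
    AddMonoidHom.toMultiplicativeRight (L.comp e.toAddMonoidHom)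
  refine ⟨m, φ, Additive.toMul (e.symm w), hm0, ?_, ?_⟩
  · change Multiplicative.ofAdd (∑ i, u i * v i) = Multiplicative.ofAdd m
    congr 1
  · have h1 : m • (e.symm w) = Additive.ofMul c := by
      apply e.injective
      rw [map_zsmul, AddEquiv.apply_symm_apply]
      funext i
      rw [Pi.smul_apply, smul_eq_mul, ← hw i]
    have h2 := congrArg Additive.toMul h1
    exact h2

/-- The subgroup of `m`-th powers of an abelian normal subgroup. -/
def pw {G : Type*} [Group G] (N : Subgroup G) (hab : ∀ a ∈ N, ∀ b ∈ N, a * b = b * a) (m : ℤ) :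
    Subgroup G where
  carrier := {g | ∃ a ∈ N, a ^ m = g}
  one_mem' := ⟨1, N.one_mem, one_zpow m⟩
  mul_mem' := by
    rintro _ _ ⟨a, ha, rfl⟩ ⟨b, hb, rfl⟩
    exact ⟨a * b, N.mul_mem ha hb, (Commute.mul_zpow (hab a ha b hb) m)⟩
  inv_mem' := by
    rintro _ ⟨a, ha, rfl⟩
    exact ⟨a⁻¹, N.inv_mem ha, by rw [inv_zpow]⟩

theorem pw_le {G : Type*} [Group G] (N : Subgroup G) (hab : ∀ a ∈ N, ∀ b ∈ N, a * b = b * a)
    (m : ℤ) : pw N hab m ≤ N := by
  rintro _ ⟨a, ha, rfl⟩
  exact N.zpow_mem ha m

theorem pw_normal {G : Type*} [Group G] (N : Subgroup G) [hN : N.Normal]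
    (hab : ∀ a ∈ N, ∀ b ∈ N, a * b = b * a) (m : ℤ) : (pw N hab m).Normal := by
  constructor
  rintro _ ⟨a, ha, rfl⟩ g
  exact ⟨g * a * g⁻¹, hN.conj_mem a ha g, conj_zpow⟩

/-- Commutative group structure on an elementwise commutative subgroup. -/
@[reducible] def cg {G : Type*} [Group G] (N : Subgroup G)
    (hab : ∀ a ∈ N, ∀ b ∈ N, a * b = b * a) : CommGroup N :=
  { (inferInstance : Group N) with
    mul_comm := fun a b => Subtype.ext (hab a a.2 b b.2) }

theorem pw_finiteIndex {G : Type*} [Group G] [Group.FG G] (N : Subgroup G) [N.FiniteIndex]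
    (hab : ∀ a ∈ N, ∀ b ∈ N, a * b = b * a) (m : ℤ) (hm : m ≠ 0) :
    (pw N hab m).FiniteIndex := by
  have hfg : Group.FG N := inferInstance
  let _ : CommGroup N := cg N hab
  have hfg' : Group.FG N := hfg
  have h1 : ((pw N hab m).subgroupOf N).FiniteIndex := by
    refine finiteIndex_of_pow (C := N) ((pw N hab m).subgroupOf N) m.natAbs
      (Int.natAbs_pos.2 hm) ?_
    intro c
    rw [Subgroup.mem_subgroupOf]
    have h2 : (c : G) ^ m ∈ pw N hab m := ⟨c, c.2, rfl⟩
    rcases Int.natAbs_eq m with h | h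
    · have : ((c ^ m.natAbs : N) : G) = (c : G) ^ m := by
        rw [SubgroupClass.coe_pow, ← zpow_natCast, ← h]
      rw [this]; exact h2
    · have : ((c ^ m.natAbs : N) : G) = ((c : G) ^ m)⁻¹ := by
        rw [SubgroupClass.coe_pow, ← zpow_natCast, ← zpow_neg]
        congr 1
        lia
      rw [this]; exact inv_mem h2
  have h2 := Subgroup.relIndex_mul_index (pw_le N hab m)
  constructor
  rw [← h2]
  exact mul_ne_zero h1.index_ne_zero (Subgroup.FiniteIndex.index_ne_zero)

/-- A finitely generated virtually abelian group has a torsion-free abelian normal subgroup of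
finite index. -/
theorem exists_tf {G : Type*} [Group G] [Group.FG G] (h : VirtAbelian G) :
    ∃ A : Subgroup G, A.Normal ∧ A.FiniteIndex ∧ (∀ a ∈ A, ∀ b ∈ A, a * b = b * a) ∧
      ∀ a ∈ A, ∀ n : ℤ, n ≠ 0 → a ^ n = 1 → a = 1 := by
  obtain ⟨K, hK, hab⟩ := h
  let N := K.normalCore
  have hNab : ∀ a ∈ N, ∀ b ∈ N, a * b = b * a := fun a ha b hb =>
    hab a (K.normalCore_le ha) b (K.normalCore_le hb)
  have hfg : Group.FG N := inferInstance
  obtain ⟨e, he0, he⟩ : ∃ e : ℤ, e ≠ 0 ∧ ∀ a ∈ N, ∀ n : ℤ, n ≠ 0 → a ^ n = 1 → a ^ e = 1 := by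
    let _ : CommGroup N := cg N hNab
    have hfg' : Group.FG N := hfg
    have : AddGroup.FG (Additive N) := inferInstance
    obtain ⟨n, ι, _, p, hp, e, ⟨f⟩⟩ := AddCommGroup.equiv_free_prod_directSum_zmod (Additive N)
    let T : ℤ := ∏ i, ((p i : ℤ) ^ e i)
    have hT : T ≠ 0 := Finset.prod_ne_zero_iff.2 fun i _ => pow_ne_zero _ (by
      exact_mod_cast (hp i).ne_zero)
    have hTk : ∀ t : DirectSum ι (fun i : ι => ZMod (p i ^ e i)), T • t = 0 := by
      intro t
      classical
      apply DFinsupp.ext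
      intro i
      change T • (t i) = 0
      rw [zsmul_eq_mul]
      have : (T : ZMod (p i ^ e i)) = 0 := by
        rw [ZMod.intCast_zmod_eq_zero_iff_dvd]
        have := Finset.dvd_prod_of_mem (fun i => ((p i : ℤ) ^ e i)) (Finset.mem_univ i)
        push_cast
        exact this
      rw [this, zero_mul]
    refine ⟨T, hT, ?_⟩
    intro a ha k hk hak
    let a' : N := ⟨a, ha⟩
    have h1 : k • (Additive.ofMul a') = 0 := by
      change Additive.ofMul (a' ^ k) = 0
      have : a' ^ k = 1 := Subtype.ext hak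
      rw [this]; rfl
    have h2 : k • f (Additive.ofMul a') = 0 := by rw [← map_zsmul, h1, map_zero]
    have h3 : (f (Additive.ofMul a')).1 = 0 := by
      have h4 := congrArg Prod.fst h2
      change k • (f (Additive.ofMul a')).1 = 0 at h4
      rcases smul_eq_zero.1 h4 with h5 | h5
      · exact absurd h5 hk
      · exact h5
    have h5 : T • f (Additive.ofMul a') = 0 := by
      apply Prod.ext
      · change T • (f (Additive.ofMul a')).1 = 0
        rw [h3, smul_zero]
      · exact hTk _
    rw [← map_zsmul] at h5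
    have h6 : T • (Additive.ofMul a') = 0 := by
      rw [← map_zero f] at h5
      exact f.injective h5
    have h7 : a' ^ T = 1 := h6
    exact congrArg Subtype.val h7
  refine ⟨pw N hNab e, pw_normal N hNab e, pw_finiteIndex N hNab e he0, ?_, ?_⟩
  · intro a ha b hb
    exact hNab a (pw_le _ _ _ ha) b (pw_le _ _ _ hb)
  · rintro _ ⟨a, ha, rfl⟩ n hn h1
    rw [← zpow_mul] at h1
    exact he a ha _ (mul_ne_zero he0 hn) h1

/-- The trace lemma: a torsion-free abelian normal subgroup of finite index can be shrunk so that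
it meets `G₀` exactly in a prescribed cyclic subgroup of finite index. -/
theorem trace_lemma {G₀ G : Type*} [Group G₀] [Group G] [Group.FG G] (ι : G₀ →* G)
    (hι : Function.Injective ι) (A' : Subgroup G) [hA'n : A'.Normal] [hA'f : A'.FiniteIndex]
    (hab : ∀ a ∈ A', ∀ b ∈ A', a * b = b * a)
    (htf : ∀ a ∈ A', ∀ n : ℤ, n ≠ 0 → a ^ n = 1 → a = 1)
    (d : G₀) (hd : ι d ∈ A') (hfin : (Subgroup.zpowers d).FiniteIndex) :
    ∃ A : Subgroup G, A ≤ A' ∧ A.Normal ∧ A.FiniteIndex ∧
      ∀ g, ι g ∈ A ↔ g ∈ Subgroup.zpowers d := by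
  have hpow : ∀ g : G₀, ∃ n : ℕ, 0 < n ∧ g ^ n ∈ Subgroup.zpowers d := by
    intro g
    obtain ⟨n, h1, -, h2⟩ := Subgroup.exists_pow_mem_of_index_ne_zero hfin.index_ne_zero g
    exact ⟨n, h1, h2⟩
  by_cases hd1 : d = 1
  · refine ⟨A', le_rfl, hA'n, hA'f, ?_⟩
    intro g
    subst hd1
    rw [Subgroup.zpowers_one_eq_bot, Subgroup.mem_bot]
    constructor
    · intro hg
      obtain ⟨n, hn, hgn⟩ := hpow g
      rw [Subgroup.zpowers_one_eq_bot, Subgroup.mem_bot] at hgn
      apply hι
      rw [map_one]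
      refine htf _ hg n (by exact_mod_cast hn.ne') ?_
      rw [zpow_natCast, ← map_pow, hgn, map_one]
    · rintro rfl
      rw [map_one]; exact A'.one_mem
  · have hfg : Group.FG A' := inferInstance
    let _ : CommGroup A' := cg A' hab
    have hfg' : Group.FG A' := hfg
    let c : A' := ⟨ι d, hd⟩
    have hc : c ≠ 1 := by
      intro h
      apply hd1
      apply hι
      rw [map_one]
      exact congrArg Subtype.val h
    obtain ⟨m, φ, b, hm, hφ, hb⟩ := exists_functional A' (by
      intro c n hn h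
      exact Subtype.ext (htf c c.2 n hn (congrArg Subtype.val h))) c hc
    refine ⟨pw A' hab m, pw_le _ _ _, pw_normal _ _ _, pw_finiteIndex _ _ _ hm, ?_⟩
    intro g
    constructor
    · rintro ⟨a, ha, hag⟩
      obtain ⟨t, ht, hgt⟩ := hpow g
      obtain ⟨j, hj⟩ := Subgroup.mem_zpowers_iff.1 hgt
      let a' : A' := ⟨a, ha⟩
      have h1 : a' ^ (m * t) = c ^ j := by
        apply Subtype.ext
        change a ^ (m * t) = (ι d) ^ j
        rw [zpow_mul, hag, zpow_natCast, ← map_pow, ← map_zpow, hj]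
      have h2 := congrArg (fun x => Multiplicative.toAdd (φ x)) h1
      simp only [map_zpow, toAdd_zpow, smul_eq_mul, hφ, toAdd_ofAdd] at h2
      have h3 : j = t * Multiplicative.toAdd (φ a') := by
        have h4 : m * (t * Multiplicative.toAdd (φ a')) = m * j := by
          rw [mul_comm m j, ← h2]; ring
        exact (mul_left_cancel₀ hm h4).symm
      refine Subgroup.mem_zpowers_iff.2 ⟨Multiplicative.toAdd (φ a'), ?_⟩
      -- `g = d ^ φ a'`
      have hgA : ι g ∈ A' := by
        rw [← hag]; exact A'.zpow_mem ha m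
      let g' : A' := ⟨ι g, hgA⟩
      have h5 : (g' * (c ^ Multiplicative.toAdd (φ a'))⁻¹) ^ (t : ℤ) = 1 := by
        rw [mul_zpow, inv_zpow, ← zpow_mul]
        have h6 : g' ^ (t : ℤ) = c ^ j := by
          apply Subtype.ext
          change (ι g) ^ (t : ℤ) = (ι d) ^ j
          rw [zpow_natCast, ← map_pow, ← map_zpow, hj]
        rw [h6, h3, mul_comm, mul_comm (t : ℤ), inv_mul_cancel]
      have h7 := htf _ (g' * (c ^ Multiplicative.toAdd (φ a'))⁻¹).2 t
        (by exact_mod_cast ht.ne') (congrArg Subtype.val h5)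
      have h8 : ι g * (ι d ^ Multiplicative.toAdd (φ a'))⁻¹ = 1 := h7
      apply hι
      rw [map_zpow]
      exact (mul_inv_eq_one.1 h8).symm
    · intro hg
      obtain ⟨k, rfl⟩ := Subgroup.mem_zpowers_iff.1 hg
      refine ⟨(b : G) ^ k, A'.zpow_mem b.2 k, ?_⟩
      have h1 : (b : G) ^ m = ι d := congrArg Subtype.val hb
      rw [← zpow_mul, mul_comm, zpow_mul, h1, map_zpow]

end Pool.Agent.R657.VA
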