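import Mathlib
import Pool.Agent.R657.AmalgVA3

namespace Pool.Agent.R657.VA

universe u

theorem virtAbelian_pi {K : Type*} [Finite K] (E : K → Type*) [∀ k, Group (E k)]
    (h : ∀ k, VirtAbelian (E k)) : VirtAbelian (∀ k, E k) := by
  choose A hA hab using h
  refine ⟨⨅ k, (A k).comap (Pi.evalMonoidHom E k), ?_, ?_⟩
  · apply Subgroup.finiteIndex_iInf
    intro k
    constructor
    rw [Subgroup.index_comap]
    intro h0
    have h1 := Subgroup.relIndex_eq_zero_of_le_right (le_top (a := (Pi.evalMonoidHom E k).range)) h0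
    rw [Subgroup.relIndex_top_right] at h1
    exact (hA k).index_ne_zero h1
  · intro a ha b hb
    funext k
    rw [Subgroup.mem_iInf] at ha hb
    exact hab k (a k) (ha k) (b k) (hb k)

theorem virtAbelian_subgroup {G : Type*} [Group G] (h : VirtAbelian G) (H : Subgroup G) :
    VirtAbelian H := by
  obtain ⟨K, hK, hab⟩ := h
  refine ⟨K.subgroupOf H, inferInstance, ?_⟩
  intro a ha b hb
  rw [Subgroup.mem_subgroupOf] at ha hb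
  exact Subtype.ext (hab a ha b hb)

theorem val_at_one {G : Type*} [Group G] (A : Subgroup G) [A.Normal]
    (hab : ∀ a ∈ A, ∀ b ∈ A, a * b = b * a) (f : A →* Multiplicative ℤ) (a : A) :
    val A f (a : G) ((1 : G) : G ⧸ A) = Multiplicative.toAdd (f a) := by
  unfold val
  congr 2
  apply Subtype.ext
  rw [coc_of_mem A a.2]
  have hm : (((1 : G) : G ⧸ A)).out ∈ A := by
    have : (((((1 : G) : G ⧸ A)).out : G) : G ⧸ A) = ((1 : G) : G ⧸ A) :=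
      QuotientGroup.out_eq' _
    rw [eq_comm, QuotientGroup.eq] at this
    simpa using this
  rw [hab _ a.2 _ hm]
  group

/-- The compatibility relation of weights in the case of an infinite amalgamated subgroup. -/
theorem weights_compat {G₀ G₁ G₂ : Type*} [Group G₀] [Group G₁] [Group G₂] (ι₁ : G₀ →* G₁)
    (ι₂ : G₀ →* G₂)
    (A₁ : Subgroup G₁) [A₁.Normal] (A₂ : Subgroup G₂) [A₂.Normal]
    (hab₁ : ∀ a ∈ A₁, ∀ b ∈ A₁, a * b = b * a) (hab₂ : ∀ a ∈ A₂, ∀ b ∈ A₂, a * b = b * a)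
    (d : G₀) (hd₁ : ∀ g, ι₁ g ∈ A₁ ↔ g ∈ Subgroup.zpowers d)
    (hd₂ : ∀ g, ι₂ g ∈ A₂ ↔ g ∈ Subgroup.zpowers d) (hn : (Subgroup.zpowers d).Normal)
    (f₁ : A₁ →* Multiplicative ℤ) (f₂ : A₂ →* Multiplicative ℤ) (g h : G₀) (hg : ι₁ g ∈ A₁)
    (x : G₁ ⧸ A₁) (y : G₂ ⧸ A₂) :
    val A₂ f₂ (ι₂ d) (ι₂ h • y) * val A₁ f₁ (ι₁ g) x =
      val A₁ f₁ (ι₁ d) (ι₁ h • x) * val A₂ f₂ (ι₂ g) y := by
  have hdm := Subgroup.mem_zpowers d
  have h1 : h⁻¹ * d * h ∈ Subgroup.zpowers d := by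
    have := hn.conj_mem d hdm h⁻¹
    simpa using this
  obtain ⟨e, he⟩ := Subgroup.mem_zpowers_iff.1 h1
  obtain ⟨n, rfl⟩ := Subgroup.mem_zpowers_iff.1 ((hd₁ g).1 hg)
  have e1 : val A₁ f₁ (ι₁ d) (ι₁ h • x) = e * val A₁ f₁ (ι₁ d) x := by
    have : val A₁ f₁ (ι₁ d) (ι₁ h • x) = val A₁ f₁ ((ι₁ h)⁻¹ * ι₁ d * ι₁ h) x := by
      unfold val
      rw [coc_conj A₁ hab₁ ((hd₁ d).2 hdm)]
    rw [this, ← map_inv, ← map_mul, ← map_mul, ← he, map_zpow,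
      val_zpow A₁ f₁ ((hd₁ d).2 hdm)]
  have e2 : val A₂ f₂ (ι₂ d) (ι₂ h • y) = e * val A₂ f₂ (ι₂ d) y := by
    have : val A₂ f₂ (ι₂ d) (ι₂ h • y) = val A₂ f₂ ((ι₂ h)⁻¹ * ι₂ d * ι₂ h) y := by
      unfold val
      rw [coc_conj A₂ hab₂ ((hd₂ d).2 hdm)]
    rw [this, ← map_inv, ← map_mul, ← map_mul, ← he, map_zpow,
      val_zpow A₂ f₂ ((hd₂ d).2 hdm)]
  rw [e1, e2, map_zpow, map_zpow, val_zpow A₁ f₁ ((hd₁ d).2 hdm),
    val_zpow A₂ f₂ ((hd₂ d).2 hdm)]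
  ring

/-- Assembling finitely many compatible pairs of functionals into one pair of homomorphisms. -/
theorem assemble {G₀ G₁ G₂ : Type u} [Group G₀] [Group G₁] [Group G₂] (ι₁ : G₀ →* G₁)
    (ι₂ : G₀ →* G₂)
    (A₁ : Subgroup G₁) [A₁.Normal] [A₁.FiniteIndex] (A₂ : Subgroup G₂) [A₂.Normal]
    [A₂.FiniteIndex]
    (hab₁ : ∀ a ∈ A₁, ∀ b ∈ A₁, a * b = b * a) (hab₂ : ∀ a ∈ A₂, ∀ b ∈ A₂, a * b = b * a)
    (htr : ∀ g, ι₁ g ∈ A₁ ↔ ι₂ g ∈ A₂) {K : Type} [Finite K] [Nonempty K]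
    (f₁ : K → A₁ →* Multiplicative ℤ) (f₂ : K → A₂ →* Multiplicative ℤ)
    (w₁ : K → G₂ ⧸ A₂ → ℤ) (w₂ : K → G₁ ⧸ A₁ → ℤ)
    (hR : ∀ k, ∀ g h : G₀, ι₁ g ∈ A₁ → ∀ x y,
      w₁ k (ι₂ h • y) * val A₁ (f₁ k) (ι₁ g) x = w₂ k (ι₁ h • x) * val A₂ (f₂ k) (ι₂ g) y)
    (hw : ∀ k, w₁ k ((1 : G₂) : G₂ ⧸ A₂) = w₂ k ((1 : G₁) : G₁ ⧸ A₁))
    (hw0 : ∀ k, w₁ k ((1 : G₂) : G₂ ⧸ A₂) ≠ 0) :
    ∃ (E : Type u) (_ : Group E) (ν₁ : G₁ →* E) (ν₂ : G₂ →* E), VirtAbelian E ∧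
      (∀ g, ν₁ (ι₁ g) = ν₂ (ι₂ g)) ∧ (∀ g, ν₁ g = 1 → g ∈ A₁) ∧ (∀ g, ν₂ g = 1 → g ∈ A₂) ∧
      ∀ (a₁ : A₁) (a₂ : A₂), ν₁ a₁ = ν₂ a₂ → ∀ k, f₁ k a₁ = f₂ k a₂ := by
  have H := fun k => key ι₁ ι₂ A₁ A₂ hab₁ hab₂ htr (f₁ k) (f₂ k) (w₁ k) (w₂ k) (hR k)
  choose ν₁ ν₂ h1 h2 h3 h4 using H
  obtain ⟨k₀⟩ := ‹Nonempty K›
  refine ⟨K → TG ((G₁ ⧸ A₁) × (G₂ ⧸ A₂)), inferInstance, MonoidHom.pi ν₁, MonoidHom.pi ν₂,
    virtAbelian_pi _ fun _ => virtAbelian_TG _, ?_, ?_, ?_, ?_⟩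
  · intro g
    funext k
    exact h1 k g
  · intro g hg
    exact h2 k₀ g (congrFun hg k₀)
  · intro g hg
    exact h3 k₀ g (congrFun hg k₀)
  · intro a₁ a₂ h k
    have := h4 k a₁ a₂ (congrFun h k)
    rw [← hw k] at this
    exact Multiplicative.toAdd.injective (mul_left_cancel₀ (hw0 k) this)

/-- The main construction. -/
theorem construct {G₀ G₁ G₂ : Type u} [Group G₀] [Group G₁] [Group G₂] [Group.FG G₁]
    [Group.FG G₂] (ι₁ : G₀ →* G₁) (ι₂ : G₀ →* G₂)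
    (A₁ : Subgroup G₁) [A₁.Normal] [A₁.FiniteIndex] (A₂ : Subgroup G₂) [A₂.Normal]
    [A₂.FiniteIndex]
    (hab₁ : ∀ a ∈ A₁, ∀ b ∈ A₁, a * b = b * a) (hab₂ : ∀ a ∈ A₂, ∀ b ∈ A₂, a * b = b * a)
    (htf₁ : ∀ a ∈ A₁, ∀ n : ℤ, n ≠ 0 → a ^ n = 1 → a = 1)
    (htf₂ : ∀ a ∈ A₂, ∀ n : ℤ, n ≠ 0 → a ^ n = 1 → a = 1)
    (d : G₀) (hd₁ : ∀ g, ι₁ g ∈ A₁ ↔ g ∈ Subgroup.zpowers d)
    (hd₂ : ∀ g, ι₂ g ∈ A₂ ↔ g ∈ Subgroup.zpowers d) (hn : (Subgroup.zpowers d).Normal)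
    (hι₁ : Function.Injective ι₁) (hι₂ : Function.Injective ι₂) :
    ∃ (E : Type u) (_ : Group E) (ν₁ : G₁ →* E) (ν₂ : G₂ →* E), VirtAbelian E ∧
      (∀ g, ν₁ (ι₁ g) = ν₂ (ι₂ g)) ∧ (∀ g, ν₁ g = 1 → g ∈ A₁) ∧ (∀ g, ν₂ g = 1 → g ∈ A₂) ∧
      ∃ (s : ℤ) (F₁ : A₁ →* Multiplicative ℤ) (F₂ : A₂ →* Multiplicative ℤ), s ≠ 0 ∧
      ∀ (a₁ : A₁) (a₂ : A₂), ν₁ a₁ = ν₂ a₂ → F₁ a₁ = F₂ a₂ ∧
        (a₁ : G₁) ^ s = (ι₁ d) ^ (Multiplicative.toAdd (F₁ a₁)) ∧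
        (a₂ : G₂) ^ s = (ι₂ d) ^ (Multiplicative.toAdd (F₂ a₂)) := by
  have htr : ∀ g, ι₁ g ∈ A₁ ↔ ι₂ g ∈ A₂ := fun g => by rw [hd₁, hd₂]
  have hdm := Subgroup.mem_zpowers d
  have hfg₁ : Group.FG A₁ := inferInstance
  have hfg₂ : Group.FG A₂ := inferInstance
  let _ : CommGroup A₁ := cg A₁ hab₁
  let _ : CommGroup A₂ := cg A₂ hab₂
  have hfg₁' : Group.FG A₁ := hfg₁
  have hfg₂' : Group.FG A₂ := hfg₂
  have htf₁' : ∀ c : A₁, ∀ n : ℤ, n ≠ 0 → c ^ n = 1 → c = 1 := fun c n hn h =>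
    Subtype.ext (htf₁ c c.2 n hn (congrArg Subtype.val h))
  have htf₂' : ∀ c : A₂, ∀ n : ℤ, n ≠ 0 → c ^ n = 1 → c = 1 := fun c n hn h =>
    Subtype.ext (htf₂ c c.2 n hn (congrArg Subtype.val h))
  obtain ⟨n₁, ⟨e₁⟩⟩ := exists_coords A₁ htf₁'
  obtain ⟨n₂, ⟨e₂⟩⟩ := exists_coords A₂ htf₂'
  let X₁ : Fin n₁ → A₁ →* Multiplicative ℤ := fun i =>
    AddMonoidHom.toMultiplicativeRight ((Pi.evalAddMonoidHom (fun _ => ℤ) i).comp
      e₁.toAddMonoidHom)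
  let X₂ : Fin n₂ → A₂ →* Multiplicative ℤ := fun i =>
    AddMonoidHom.toMultiplicativeRight ((Pi.evalAddMonoidHom (fun _ => ℤ) i).comp
      e₂.toAddMonoidHom)
  have hX₁ : ∀ a b : A₁, (∀ i, X₁ i a = X₁ i b) → a = b := by
    intro a b h
    have h1 : e₁ (Additive.ofMul a) = e₁ (Additive.ofMul b) := by
      funext i
      exact congrArg Multiplicative.toAdd (h i)
    exact e₁.injective h1
  have hX₂ : ∀ a b : A₂, (∀ i, X₂ i a = X₂ i b) → a = b := by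
    intro a b h
    have h1 : e₂ (Additive.ofMul a) = e₂ (Additive.ofMul b) := by
      funext i
      exact congrArg Multiplicative.toAdd (h i)
    exact e₂.injective h1
  let c₁ : A₁ := ⟨ι₁ d, (hd₁ d).2 hdm⟩
  let c₂ : A₂ := ⟨ι₂ d, (hd₂ d).2 hdm⟩
  by_cases hd : d = 1
  · -- the finite case
    obtain ⟨E, hE, ν₁, ν₂, h1, h2, h3, h4, h5⟩ := assemble ι₁ ι₂ A₁ A₂ hab₁ hab₂ htr
      (K := Option (Fin n₁ ⊕ Fin n₂))
      (fun k => match k with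
        | none => 1
        | some (Sum.inl i) => X₁ i
        | some (Sum.inr i) => 1)
      (fun k => match k with
        | none => 1
        | some (Sum.inl i) => 1
        | some (Sum.inr i) => X₂ i)
      (fun _ _ => 1) (fun _ _ => 1) (by
        intro k g h hg x y
        have hg1 : g = 1 := by
          have := (hd₁ g).1 hg
          rw [hd, Subgroup.zpowers_one_eq_bot, Subgroup.mem_bot] at this
          exact this
        rw [hg1, map_one, map_one, val_one, val_one]) (fun _ => rfl) (fun _ => one_ne_zero)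
    refine ⟨E, hE, ν₁, ν₂, h1, h2, h3, h4, 1, 1, 1, one_ne_zero, ?_⟩
    intro a₁ a₂ h
    have h6 := h5 a₁ a₂ h
    have h7 : a₁ = 1 := hX₁ _ _ (fun i => by
      rw [map_one]
      exact h6 (some (Sum.inl i)))
    have h8 : a₂ = 1 := hX₂ _ _ (fun i => by
      rw [map_one]
      exact (h6 (some (Sum.inr i))).symm)
    subst h7
    subst h8
    simp
  · -- the infinite case
    have hc₁ : c₁ ≠ 1 := by
      intro h
      apply hd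
      apply hι₁
      rw [map_one]
      exact congrArg Subtype.val h
    have hc₂ : c₂ ≠ 1 := by
      intro h
      apply hd
      apply hι₂
      rw [map_one]
      exact congrArg Subtype.val h
    obtain ⟨m₁, φ₁, -, hm₁, hφ₁, -⟩ := exists_functional A₁ htf₁' c₁ hc₁
    obtain ⟨m₂, φ₂, -, hm₂, hφ₂, -⟩ := exists_functional A₂ htf₂' c₂ hc₂
    let F₁ : A₁ →* Multiplicative ℤ := φ₁ ^ m₂
    let F₂ : A₂ →* Multiplicative ℤ := φ₂ ^ m₁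
    let s : ℤ := m₁ * m₂
    have hs : s ≠ 0 := mul_ne_zero hm₁ hm₂
    have hF₁ : F₁ c₁ = Multiplicative.ofAdd s := by
      change (φ₁ c₁) ^ m₂ = _
      rw [hφ₁, ← ofAdd_zsmul, smul_eq_mul, mul_comm]
    have hF₂ : F₂ c₂ = Multiplicative.ofAdd s := by
      change (φ₂ c₂) ^ m₁ = _
      rw [hφ₂, ← ofAdd_zsmul, smul_eq_mul]
    let Y₁ : Fin n₁ → A₁ →* Multiplicative ℤ := fun i =>
      F₁ ^ (Multiplicative.toAdd (X₁ i c₁)) * (X₁ i ^ s)⁻¹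
    let Y₂ : Fin n₂ → A₂ →* Multiplicative ℤ := fun i =>
      F₂ ^ (Multiplicative.toAdd (X₂ i c₂)) * (X₂ i ^ s)⁻¹
    have hY₁ : ∀ i, Y₁ i c₁ = 1 := by
      intro i
      change (F₁ c₁) ^ (Multiplicative.toAdd (X₁ i c₁)) * ((X₁ i c₁) ^ s)⁻¹ = 1
      rw [hF₁, mul_inv_eq_one]
      apply Multiplicative.toAdd.injective
      rw [toAdd_zpow, toAdd_zpow, toAdd_ofAdd, smul_eq_mul, smul_eq_mul, mul_comm]
    have hY₂ : ∀ i, Y₂ i c₂ = 1 := by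
      intro i
      change (F₂ c₂) ^ (Multiplicative.toAdd (X₂ i c₂)) * ((X₂ i c₂) ^ s)⁻¹ = 1
      rw [hF₂, mul_inv_eq_one]
      apply Multiplicative.toAdd.injective
      rw [toAdd_zpow, toAdd_zpow, toAdd_ofAdd, smul_eq_mul, smul_eq_mul, mul_comm]
    let P₁ : Option (Fin n₁ ⊕ Fin n₂) → A₁ →* Multiplicative ℤ := fun k =>
      match k with
        | none => F₁
        | some (Sum.inl i) => F₁ * Y₁ i
        | some (Sum.inr _) => F₁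
    let P₂ : Option (Fin n₁ ⊕ Fin n₂) → A₂ →* Multiplicative ℤ := fun k =>
      match k with
        | none => F₂
        | some (Sum.inl _) => F₂
        | some (Sum.inr i) => F₂ * Y₂ i
    have hP₁ : ∀ k, P₁ k c₁ = Multiplicative.ofAdd s := by
      rintro (_ | i | i)
      · exact hF₁
      · change F₁ c₁ * Y₁ i c₁ = _
        rw [hY₁, mul_one, hF₁]
      · exact hF₁
    have hP₂ : ∀ k, P₂ k c₂ = Multiplicative.ofAdd s := by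
      rintro (_ | i | i)
      · exact hF₂
      · exact hF₂
      · change F₂ c₂ * Y₂ i c₂ = _
        rw [hY₂, mul_one, hF₂]
    obtain ⟨E, hE, ν₁, ν₂, h1, h2, h3, h4, h5⟩ := assemble ι₁ ι₂ A₁ A₂ hab₁ hab₂ htr
      P₁ P₂ (fun k y => val A₂ (P₂ k) (ι₂ d) y) (fun k x => val A₁ (P₁ k) (ι₁ d) x)
      (by
        intro k g h hg x y
        exact weights_compat ι₁ ι₂ A₁ A₂ hab₁ hab₂ d hd₁ hd₂ hn (P₁ k) (P₂ k) g h hg x y)
      (by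
        intro k
        have e1 := val_at_one A₁ hab₁ (P₁ k) c₁
        have e2 := val_at_one A₂ hab₂ (P₂ k) c₂
        rw [hP₁] at e1
        rw [hP₂] at e2
        exact e2.trans e1.symm)
      (by
        intro k
        have e2 := val_at_one A₂ hab₂ (P₂ k) c₂
        rw [hP₂] at e2
        change val A₂ (P₂ k) (c₂ : G₂) ((1 : G₂) : G₂ ⧸ A₂) ≠ 0
        rw [e2]
        exact hs)
    refine ⟨E, hE, ν₁, ν₂, h1, h2, h3, h4, s, F₁, F₂, hs, ?_⟩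
    intro a₁ a₂ h
    have h6 := h5 a₁ a₂ h
    have h7 : F₁ a₁ = F₂ a₂ := h6 none
    refine ⟨h7, ?_, ?_⟩
    · have h8 : a₁ ^ s = c₁ ^ Multiplicative.toAdd (F₁ a₁) := by
        apply hX₁
        intro i
        have h9 : F₁ a₁ * ((F₁ a₁) ^ (Multiplicative.toAdd (X₁ i c₁)) * ((X₁ i a₁) ^ s)⁻¹) =
          F₂ a₂ := h6 (some (Sum.inl i))
        rw [← h7, mul_eq_left, mul_inv_eq_one] at h9
        rw [map_zpow, map_zpow, ← h9]
        apply Multiplicative.toAdd.injective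
        rw [toAdd_zpow, toAdd_zpow, smul_eq_mul, smul_eq_mul, mul_comm]
      exact congrArg Subtype.val h8
    · have h8 : a₂ ^ s = c₂ ^ Multiplicative.toAdd (F₂ a₂) := by
        apply hX₂
        intro i
        have h9 : F₁ a₁ = 
          F₂ a₂ * ((F₂ a₂) ^ (Multiplicative.toAdd (X₂ i c₂)) * ((X₂ i a₂) ^ s)⁻¹) :=
          h6 (some (Sum.inr i))
        rw [h7, eq_comm, mul_eq_left, mul_inv_eq_one] at h9
        rw [map_zpow, map_zpow, ← h9]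
        apply Multiplicative.toAdd.injective
        rw [toAdd_zpow, toAdd_zpow, smul_eq_mul, smul_eq_mul, mul_comm]
      exact congrArg Subtype.val h8

end Pool.Agent.R657.VA
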