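import Mathlib
import Pool.Agent.R657.AmalgVA4

namespace Pool.Agent.R657.VA

universe u

theorem finiteIndex_comap {G H : Type*} [Group G] [Group H] (f : G →* H) (A : Subgroup H)
    [hA : A.FiniteIndex] : (A.comap f).FiniteIndex := by
  constructor
  rw [Subgroup.index_comap]
  intro h0
  have h1 := Subgroup.relIndex_eq_zero_of_le_right (le_top (a := f.range)) h0
  rw [Subgroup.relIndex_top_right] at h1
  exact hA.index_ne_zero h1

theorem relIndex_map_range {G H : Type*} [Group G] [Group H] (f : G →* H) (A : Subgroup G)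
    [hA : A.FiniteIndex] : (A.map f).relIndex f.range ≠ 0 := by
  rw [MonoidHom.range_eq_map, ← Subgroup.relIndex_comap, Subgroup.relIndex_top_right]
  exact (Subgroup.finiteIndex_of_le (Subgroup.le_comap_map f A)).index_ne_zero

theorem virtCyclic_inter {G₀ G₁ G₂ E : Type*} [Group G₀] [Group G₁] [Group G₂] [Group E]
    [Group.FG G₁] (ι₁ : G₀ →* G₁) (ι₂ : G₀ →* G₂)
    (A₁ : Subgroup G₁) [A₁.FiniteIndex] (A₂ : Subgroup G₂) [A₂.FiniteIndex]
    (hab₁ : ∀ a ∈ A₁, ∀ b ∈ A₁, a * b = b * a)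
    (htf₁ : ∀ a ∈ A₁, ∀ n : ℤ, n ≠ 0 → a ^ n = 1 → a = 1)
    (d : G₀) (hdA₁ : ι₁ d ∈ A₁) (ν₁ : G₁ →* E) (ν₂ : G₂ →* E)
    (hν : ∀ g, ν₁ (ι₁ g) = ν₂ (ι₂ g)) (s : ℤ) (hs : s ≠ 0) (F₁ : A₁ →* Multiplicative ℤ)
    (h : ∀ (a₁ : A₁) (a₂ : A₂), ν₁ a₁ = ν₂ a₂ →
      (a₁ : G₁) ^ s = (ι₁ d) ^ (Multiplicative.toAdd (F₁ a₁))) :
    VirtCyclic ↥(ν₁.range ⊓ ν₂.range) := by
  have hz : ν₁ (ι₁ d) ∈ ν₁.range ⊓ ν₂.range := by
    refine Subgroup.mem_inf.2 ⟨⟨_, rfl⟩, ?_⟩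
    rw [hν]
    exact ⟨_, rfl⟩
  have key : (Subgroup.zpowers (ν₁ (ι₁ d))).relIndex (ν₁.range ⊓ ν₂.range) ≠ 0 := by
    refine Subgroup.relIndex_ne_zero_trans (K := A₁.map ν₁ ⊓ A₂.map ν₂) ?_ ?_
    · let B : Subgroup G₁ := A₁ ⊓ (A₂.map ν₂).comap ν₁
      have hM : A₁.map ν₁ ⊓ A₂.map ν₂ ≤ B.map ν₁ := by
        rintro x hx
        obtain ⟨h1, h2⟩ := Subgroup.mem_inf.1 hx
        obtain ⟨a, ha, rfl⟩ := Subgroup.mem_map.1 h1
        exact Subgroup.mem_map.2 ⟨a, Subgroup.mem_inf.2 ⟨ha, h2⟩, rfl⟩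
      intro h0
      have h1 := Subgroup.relIndex_eq_zero_of_le_right hM h0
      rw [← Subgroup.relIndex_comap] at h1
      revert h1
      change _ ≠ 0
      -- the subgroup `W`
      have hfg : Group.FG A₁ := inferInstance
      let _ : CommGroup A₁ := cg A₁ hab₁
      have hfg' : Group.FG A₁ := hfg
      let U : Subgroup A₁ := (Subgroup.zpowers (Multiplicative.ofAdd s)).comap F₁
      have hU : U.FiniteIndex := by
        refine finiteIndex_of_pow U s.natAbs (Int.natAbs_pos.2 hs) ?_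
        intro c
        have h2 : c ^ s ∈ U := by
          rw [Subgroup.mem_comap, map_zpow]
          refine Subgroup.mem_zpowers_iff.2 ⟨Multiplicative.toAdd (F₁ c), ?_⟩
          apply Multiplicative.toAdd.injective
          rw [toAdd_zpow, toAdd_zpow, toAdd_ofAdd, smul_eq_mul, smul_eq_mul, mul_comm]
        rcases Int.natAbs_eq s with h3 | h3
        · rw [← zpow_natCast, ← h3]; exact h2
        · have h4 : c ^ s.natAbs = (c ^ s)⁻¹ := by
            rw [← zpow_natCast, ← zpow_neg]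
            congr 1
            lia
          rw [h4]; exact inv_mem h2
      let W : Subgroup G₁ := U.map A₁.subtype
      have hW : W.relIndex A₁ ≠ 0 := by
        have : W.subgroupOf A₁ = U := by
          change (U.map A₁.subtype).comap A₁.subtype = U
          exact Subgroup.comap_map_eq_self_of_injective A₁.subtype_injective U
        rw [Subgroup.relIndex, this]
        exact hU.index_ne_zero
      have hW2 : (W ⊓ B).relIndex B ≠ 0 := by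
        rw [Subgroup.inf_relIndex_right]
        intro h2
        exact hW (Subgroup.relIndex_eq_zero_of_le_right inf_le_left h2)
      intro h2
      refine hW2 (Subgroup.relIndex_eq_zero_of_le_left ?_ h2)
      intro x hx
      obtain ⟨hxW, hxB⟩ := Subgroup.mem_inf.1 hx
      obtain ⟨a, ha, rfl⟩ := Subgroup.mem_map.1 hxW
      obtain ⟨-, hxB2⟩ := Subgroup.mem_inf.1 hxB
      obtain ⟨a₂, ha₂, h3⟩ := Subgroup.mem_map.1 (Subgroup.mem_comap.1 hxB2)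
      have h4 := h a ⟨a₂, ha₂⟩ h3.symm
      obtain ⟨k, hk⟩ := Subgroup.mem_zpowers_iff.1 (Subgroup.mem_comap.1 ha)
      have h5 : Multiplicative.toAdd (F₁ a) = k * s := by
        rw [← hk, toAdd_zpow, toAdd_ofAdd, smul_eq_mul]
      rw [h5] at h4
      have h6 : (a : G₁) = (ι₁ d) ^ k := by
        have h7 : ((a : G₁) * ((ι₁ d) ^ k)⁻¹) ^ s = 1 := by
          have hc : Commute (a : G₁) ((ι₁ d) ^ k)⁻¹ :=
            hab₁ _ a.2 _ (A₁.inv_mem (A₁.zpow_mem hdA₁ k))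
          rw [hc.mul_zpow, h4, inv_zpow, ← zpow_mul, mul_inv_cancel]
        have h8 := htf₁ _ (A₁.mul_mem a.2 (A₁.inv_mem (A₁.zpow_mem hdA₁ k))) s hs h7
        exact mul_inv_eq_one.1 h8
      rw [Subgroup.mem_comap]
      change ν₁ (a : G₁) ∈ _
      rw [h6, map_zpow]
      exact Subgroup.zpow_mem _ (Subgroup.mem_zpowers _) k
    · apply Subgroup.relIndex_inf_ne_zero
      · intro h0
        exact relIndex_map_range ν₁ A₁ (Subgroup.relIndex_eq_zero_of_le_right inf_le_left h0)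
      · intro h0
        exact relIndex_map_range ν₂ A₂ (Subgroup.relIndex_eq_zero_of_le_right inf_le_right h0)
  refine ⟨Subgroup.zpowers ⟨ν₁ (ι₁ d), hz⟩, ?_, inferInstance⟩
  have h1 : ((Subgroup.zpowers (ν₁ (ι₁ d))).subgroupOf (ν₁.range ⊓ ν₂.range)).FiniteIndex :=
    ⟨key⟩
  refine Subgroup.finiteIndex_of_le (H := (Subgroup.zpowers (ν₁ (ι₁ d))).subgroupOf
    (ν₁.range ⊓ ν₂.range)) ?_
  intro x hx
  obtain ⟨k, hk⟩ := Subgroup.mem_zpowers_iff.1 (Subgroup.mem_subgroupOf.1 hx)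
  exact Subgroup.mem_zpowers_iff.2 ⟨k, Subtype.ext hk⟩

theorem main_pair {G₀ G₁ G₂ : Type u} [Group G₀] [Group G₁] [Group G₂] [Group.FG G₁]
    [Group.FG G₂] (h₀ : VirtCyclic G₀) (h₁ : VirtAbelian G₁) (h₂ : VirtAbelian G₂)
    (ι₁ : G₀ →* G₁) (ι₂ : G₀ →* G₂) (hι₁ : Function.Injective ι₁)
    (hι₂ : Function.Injective ι₂) :
    ∃ (E : Type u) (_ : Group E) (ν₁ : G₁ →* E) (ν₂ : G₂ →* E), Group.FG E ∧ VirtAbelian E ∧
      (∀ g, ν₁ (ι₁ g) = ν₂ (ι₂ g)) ∧ Function.Injective ν₁ ∧ Function.Injective ν₂ ∧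
      VirtCyclic ↥(ν₁.range ⊓ ν₂.range) := by
  obtain ⟨A₁', hn₁, hf₁, hab₁', htf₁'⟩ := exists_tf h₁
  obtain ⟨A₂', hn₂, hf₂, hab₂', htf₂'⟩ := exists_tf h₂
  obtain ⟨C, hC, hCc⟩ := h₀
  let N : Subgroup G₀ := (A₁'.comap ι₁ ⊓ A₂'.comap ι₂) ⊓ C.normalCore
  have hNf : N.FiniteIndex := by
    have := finiteIndex_comap ι₁ A₁'
    have := finiteIndex_comap ι₂ A₂'
    have : C.normalCore.FiniteIndex := inferInstance
    have : (A₁'.comap ι₁ ⊓ A₂'.comap ι₂).FiniteIndex := inferInstance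
    exact inferInstanceAs ((A₁'.comap ι₁ ⊓ A₂'.comap ι₂) ⊓ C.normalCore).FiniteIndex
  have hNn : N.Normal := by
    have h1 : (A₁'.comap ι₁).Normal := inferInstance
    have h2 : (A₂'.comap ι₂).Normal := inferInstance
    have h3 : C.normalCore.Normal := inferInstance
    exact Subgroup.normal_inf_normal _ _
  have hNC : N ≤ C := le_trans inf_le_right C.normalCore_le
  have hNc : IsCyclic N := by
    have h1 : IsCyclic (N.subgroupOf C) := inferInstance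
    exact isCyclic_of_surjective (Subgroup.subgroupOfEquivOfLe hNC)
      (Subgroup.subgroupOfEquivOfLe hNC).surjective
  obtain ⟨d, hd⟩ := (Subgroup.isCyclic_iff_exists_zpowers_eq_top N).1 hNc
  have hdN : d ∈ N := by rw [← hd]; exact Subgroup.mem_zpowers d
  have hdf : (Subgroup.zpowers d).FiniteIndex := by rw [hd]; exact hNf
  have hdn : (Subgroup.zpowers d).Normal := by rw [hd]; exact hNn
  have hd₁' : ι₁ d ∈ A₁' := (Subgroup.mem_inf.1 (Subgroup.mem_inf.1 hdN).1).1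
  have hd₂' : ι₂ d ∈ A₂' := (Subgroup.mem_inf.1 (Subgroup.mem_inf.1 hdN).1).2
  obtain ⟨A₁, hA₁, hA₁n, hA₁f, hd₁⟩ := trace_lemma ι₁ hι₁ A₁' hab₁' htf₁' d hd₁' hdf
  obtain ⟨A₂, hA₂, hA₂n, hA₂f, hd₂⟩ := trace_lemma ι₂ hι₂ A₂' hab₂' htf₂' d hd₂' hdf
  have hab₁ : ∀ a ∈ A₁, ∀ b ∈ A₁, a * b = b * a := fun a ha b hb =>
    hab₁' a (hA₁ ha) b (hA₁ hb)
  have hab₂ : ∀ a ∈ A₂, ∀ b ∈ A₂, a * b = b * a := fun a ha b hb =>
    hab₂' a (hA₂ ha) b (hA₂ hb)
  have htf₁ : ∀ a ∈ A₁, ∀ n : ℤ, n ≠ 0 → a ^ n = 1 → a = 1 := fun a ha => htf₁' a (hA₁ ha)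
  have htf₂ : ∀ a ∈ A₂, ∀ n : ℤ, n ≠ 0 → a ^ n = 1 → a = 1 := fun a ha => htf₂' a (hA₂ ha)
  obtain ⟨E, hE, ν₁, ν₂, hva, hν, hk₁, hk₂, s, F₁, F₂, hs, hF⟩ :=
    construct ι₁ ι₂ A₁ A₂ hab₁ hab₂ htf₁ htf₂ d hd₁ hd₂ hdn hι₁ hι₂
  let L : Subgroup E := ν₁.range ⊔ ν₂.range
  let μ₁ : G₁ →* L := ν₁.codRestrict L (fun g => (le_sup_left : ν₁.range ≤ L) ⟨g, rfl⟩)
  let μ₂ : G₂ →* L := ν₂.codRestrict L (fun g => (le_sup_right : ν₂.range ≤ L) ⟨g, rfl⟩)
  have hμ₁ : ∀ g, ((μ₁ g : L) : E) = ν₁ g := fun g => rfl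
  have hμ₂ : ∀ g, ((μ₂ g : L) : E) = ν₂ g := fun g => rfl
  have hLfg : Group.FG L := by
    rw [Group.fg_iff_subgroup_fg]
    have e1 : ν₁.range.FG := by
      rw [← Group.fg_iff_subgroup_fg]; infer_instance
    have e2 : ν₂.range.FG := by
      rw [← Group.fg_iff_subgroup_fg]; infer_instance
    exact e1.sup e2
  refine ⟨L, inferInstance, μ₁, μ₂, hLfg, virtAbelian_subgroup hva L, ?_, ?_, ?_, ?_⟩
  · intro g
    exact Subtype.ext (hν g)
  · rw [injective_iff_map_eq_one]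
    intro g hg
    have hg1 : ν₁ g = 1 := congrArg Subtype.val hg
    have hgA := hk₁ g hg1
    obtain ⟨h3, h4, -⟩ := hF ⟨g, hgA⟩ 1 (by
      change ν₁ g = ν₂ 1
      rw [hg1, map_one])
    rw [map_one] at h3
    rw [h3, toAdd_one, zpow_zero] at h4
    exact htf₁ g hgA s hs h4
  · rw [injective_iff_map_eq_one]
    intro g hg
    have hg1 : ν₂ g = 1 := congrArg Subtype.val hg
    have hgA := hk₂ g hg1
    obtain ⟨h3, -, h4⟩ := hF 1 ⟨g, hgA⟩ (by
      change ν₁ 1 = ν₂ g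
      rw [hg1, map_one])
    rw [map_one] at h3
    rw [← h3, toAdd_one, zpow_zero] at h4
    exact htf₂ g hgA s hs h4
  · refine virtCyclic_inter ι₁ ι₂ A₁ A₂ hab₁ htf₁ d ((hd₁ d).2 (Subgroup.mem_zpowers d))
      μ₁ μ₂ (fun g => Subtype.ext (hν g)) s hs F₁ ?_
    intro a₁ a₂ h
    exact (hF a₁ a₂ (congrArg Subtype.val h)).2.1

end Pool.Agent.R657.VA
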