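import Pool.Agent.R537.LR.Stm
import Pool.Agent.ER.Bounded
import Pool.Agent.H612.CollectPoly
import Pool.Agent.H687R2.IntPoly

/-!
# LR-P1 (helper657 for helper537): the reduction `F1` is computable in polynomial time
-/

set_option autoImplicit false

namespace Pool.Agent.NPC.R537LR

open Pool.Agent.NPC Pool.Agent.NPC.ER
open Pool.Agent.NPC.H612 (poly_idxOf)

namespace P1

variable {α β : Type} [TEnc α] [TEnc β]

theorem poly_con_vars {f : α → ER.Con} (hf : Poly f) : Poly (fun a => (f a).vars) := by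
  have h0 : Poly (fun a => (f a).code) := poly_con_code hf
  have h1 : Poly (fun a => decide ((f a).code.1 = 0)) := Poly.decide_eq (Poly.fst h0) (Poly.const 0)
  have h : Poly (fun a => if (f a).code.1 = 0 then [(f a).code.2.1] else
      [(f a).code.2.1, (f a).code.2.2.1, (f a).code.2.2.2]) :=
    Poly.ite h1 (Poly.cons (Poly.fst (Poly.snd h0)) (Poly.const _))
      (Poly.cons (Poly.fst (Poly.snd h0)) (Poly.cons (Poly.fst (Poly.snd (Poly.snd h0)))
        (Poly.cons (Poly.snd (Poly.snd (Poly.snd h0))) (Poly.const _))))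
  refine h.congr fun a => ?_
  cases f a <;> simp [Con.code, Con.vars]

theorem poly_svars {S : α → List ER.Con} (hS : Poly S) : Poly (fun a => svars (S a)) :=
  Poly.flatMap (F := fun _ c => Con.vars c) hS (poly_con_vars (Poly.snd Poly.id))

theorem poly_intToRat {z : α → ℤ} (hz : Poly z) : Poly (fun a => ((z a : ℤ) : ℚ)) := by
  have h : Poly (fun a => (z a, (1 : ℕ))) := Poly.pair hz (Poly.const 1)
  have h2 : Poly (fun a => (((z a : ℤ) : ℚ).num, ((z a : ℤ) : ℚ).den)) := h.congr fun a => by simp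
  exact h2

theorem poly_natRat {n : α → ℕ} (hn : Poly n) : Poly (fun a => ((n a : ℕ) : ℚ)) :=
  (poly_intToRat (Poly.natCast hn)).congr fun a => by simp

theorem poly_gate {t i j k : α → ℕ} {z : α → ℤ} (ht : Poly t) (hi : Poly i) (hj : Poly j)
    (hk : Poly k) (hz : Poly z) : Poly (fun a => ((t a, i a, j a, k a, z a) : Gate)) :=
  Poly.pair ht (Poly.pair hi (Poly.pair hj (Poly.pair hk hz)))

theorem pblk_eq (V : List ℕ) (L : ℕ) (c : ER.Con) (b : ℕ) : pblk V L c b =
    (if c.code.1 = 0 then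
      ([(1, 0, 0, b, 0), (1, 0, 0, b + 1, 0), (1, 0, 0, b + 2, 0),
        (2, V.idxOf c.code.2.1, L + 1, b + 3, 0)] : List Gate)
    else if c.code.1 = 1 then
      ([(2, V.idxOf c.code.2.1, V.idxOf c.code.2.2.1, b, 0),
        (3, V.idxOf c.code.2.2.2, L, b + 1, 0),
        (2, b + 1, L + 2, b + 2, 0), (2, b, b + 2, b + 3, 0)] : List Gate)
    else
      ([(3, V.idxOf c.code.2.1, V.idxOf c.code.2.2.1, b, 0),
        (3, V.idxOf c.code.2.2.2, L, b + 1, 0),
        (1, 0, 0, b + 2, 0), (2, b, b + 1, b + 3, 0)] : List Gate)) ++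
    ([(3, b + 3, b + 3, b + 4, 0), (2, b - 1, b + 4, b + 5, 0)] : List Gate) := by
  cases c <;> simp [pblk, Con.code]

theorem poly_pblk {V : α → List ℕ} {L b : α → ℕ} {c : α → ER.Con} (hV : Poly V) (hL : Poly L)
    (hc : Poly c) (hb : Poly b) : Poly (fun a => pblk (V a) (L a) (c a) (b a)) := by
  have h0 : Poly (fun a => (c a).code) := poly_con_code hc
  have hi := poly_idxOf hV (Poly.fst (Poly.snd h0))
  have hj := poly_idxOf hV (Poly.fst (Poly.snd (Poly.snd h0)))
  have hk := poly_idxOf hV (Poly.snd (Poly.snd (Poly.snd h0)))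
  have b1 := Poly.add hb (Poly.const 1)
  have b2 := Poly.add hb (Poly.const 2)
  have b3 := Poly.add hb (Poly.const 3)
  have b4 := Poly.add hb (Poly.const 4)
  have b5 := Poly.add hb (Poly.const 5)
  have z : Poly (fun _ : α => (0 : ℤ)) := Poly.const 0
  have n0 : Poly (fun _ : α => (0 : ℕ)) := Poly.const 0
  have n1 : Poly (fun _ : α => (1 : ℕ)) := Poly.const 1
  have n2 : Poly (fun _ : α => (2 : ℕ)) := Poly.const 2
  have n3 : Poly (fun _ : α => (3 : ℕ)) := Poly.const 3
  have key := Poly.append (Poly.ite (Poly.decide_eq (Poly.fst h0) (Poly.const 0))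
    (Poly.cons (poly_gate n1 n0 n0 hb z) (Poly.cons (poly_gate n1 n0 n0 b1 z)
      (Poly.cons (poly_gate n1 n0 n0 b2 z) (Poly.cons
        (poly_gate n2 hi (Poly.add hL (Poly.const 1)) b3 z) (Poly.const [])))))
    (Poly.ite (Poly.decide_eq (Poly.fst h0) (Poly.const 1))
      (Poly.cons (poly_gate n2 hi hj hb z) (Poly.cons (poly_gate n3 hk hL b1 z)
        (Poly.cons (poly_gate n2 b1 (Poly.add hL (Poly.const 2)) b2 z) (Poly.cons
          (poly_gate n2 hb b2 b3 z) (Poly.const [])))))
      (Poly.cons (poly_gate n3 hi hj hb z) (Poly.cons (poly_gate n3 hk hL b1 z)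
        (Poly.cons (poly_gate n1 n0 n0 b2 z) (Poly.cons
          (poly_gate n2 hb b1 b3 z) (Poly.const [])))))))
    (Poly.cons (poly_gate n3 b3 b3 b4 z) (Poly.cons
      (poly_gate n2 (Poly.sub hb (Poly.const 1)) b4 b5 z) (Poly.const [])))
  exact key.congr fun a => (pblk_eq _ _ _ _).symm

variable {S : α → List ER.Con}

theorem poly_TS (hS : Poly S) : Poly (fun a => TS (S a)) := poly_bsys hS

theorem upoly_Ls (hS : Poly S) : UPoly (fun a => Ls (S a)) :=
  UPoly.length (poly_svars (poly_TS hS))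

theorem upoly_eS (hS : Poly S) : UPoly (fun a => eS (S a)) :=
  UPoly.add (UPoly.add (upoly_Ls hS) (UPoly.const 3))
    (UPoly.mul (UPoly.const 6) (UPoly.length (poly_TS hS)))

theorem upoly_KS (hS : Poly S) : UPoly (fun a => KS (S a)) :=
  UPoly.add (UPoly.mul (UPoly.const 11) (UPoly.length (poly_TS hS))) (UPoly.const 9)

theorem upoly_n1 (hS : Poly S) : UPoly (fun a => n1 (S a)) :=
  UPoly.add (UPoly.add (upoly_eS hS) (upoly_KS hS)) (UPoly.const 3)

theorem poly_prog (hS : Poly S) : Poly (fun a => prog (S a)) := by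
  have hL := (upoly_Ls hS).toPoly
  have he := (upoly_eS hS).toPoly
  have hK := (upoly_KS hS).toPoly
  have z : Poly (fun _ : α => (0 : ℤ)) := Poly.const 0
  have n0 : Poly (fun _ : α => (0 : ℕ)) := Poly.const 0
  have n1 : Poly (fun _ : α => (1 : ℕ)) := Poly.const 1
  have n2 : Poly (fun _ : α => (2 : ℕ)) := Poly.const 2
  have n3 : Poly (fun _ : α => (3 : ℕ)) := Poly.const 3
  refine Poly.append ?_ (Poly.append ?_ (Poly.append ?_ (Poly.cons ?_ (Poly.append ?_ ?_))))
  · exact Poly.map (F := fun _ k => ((0, 0, 0, k, 0) : Gate)) (upoly_Ls hS).range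
      (poly_gate (Poly.const 0) (Poly.const 0) (Poly.const 0) (Poly.snd Poly.id) (Poly.const 0))
  · exact Poly.cons (poly_gate n1 n0 n0 hL (Poly.const (-8))) (Poly.cons
      (poly_gate n1 n0 n0 (Poly.add hL (Poly.const 1)) (Poly.const (-1))) (Poly.cons
        (poly_gate n1 n0 n0 (Poly.add hL (Poly.const 2)) z) (Poly.const [])))
  · refine Poly.flatMap (F := fun a p => pblk (svars (TS (S a))) (Ls (S a)) p.1
      (Ls (S a) + 3 + 6 * p.2)) (Poly.zipIdx (poly_TS hS)) ?_
    have hLf : Poly (fun p : α × (ER.Con × ℕ) => Ls (S p.1)) := hL.comp (Poly.fst Poly.id)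
    exact poly_pblk ((poly_svars (poly_TS hS)).comp (Poly.fst Poly.id)) hLf
      (Poly.fst (Poly.snd Poly.id)) (Poly.add (Poly.add hLf (Poly.const 3))
        (Poly.mul (Poly.const 6) (Poly.snd (Poly.snd Poly.id))))
  · exact poly_gate n1 n0 n0 he (Poly.const 4)
  · refine Poly.map (F := fun a j => ((3, eS (S a) + j, eS (S a) + j, eS (S a) + j + 1, 0) : Gate))
      (upoly_KS hS).range ?_
    have h1 : Poly (fun p : α × ℕ => eS (S p.1) + p.2) :=
      Poly.add (he.comp (Poly.fst Poly.id)) (Poly.snd Poly.id)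
    exact poly_gate (Poly.const 3) h1 h1 (Poly.add h1 (Poly.const 1)) (Poly.const 0)
  · have h2 := Poly.add he hK
    have h3 := Poly.add h2 (Poly.const 1)
    exact Poly.cons (poly_gate n3 (Poly.sub he (Poly.const 1)) hL h3 z) (Poly.cons
      (poly_gate n2 h2 h3 (Poly.add h2 (Poly.const 2)) z) (Poly.const []))

/-- powers of two -/
theorem poly_two_pow {n : α → ℕ} (hn : UPoly n) : Poly (fun a => 2 ^ n a) := by
  have h1 : Poly (fun a => (List.replicate (n a) ()).map (fun _ => false) ++ [true]) :=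
    Poly.append (Poly.map (F := fun _ _ => false) hn (Poly.const false)) (Poly.const [true])
  refine (Poly.valBits h1).congr fun a => ?_
  rw [List.map_replicate, valB_replicate_false]
  simp

theorem poly_pow_size {n : α → ℕ} (hn : Poly n) : Poly (fun a => 2 ^ (n a).size) := by
  have h1 : Poly (fun a => (n a).bits.map (fun _ => false) ++ [true]) :=
    Poly.append (Poly.map (F := fun _ _ => false) (Poly.natBits hn) (Poly.const false))
      (Poly.const [true])
  refine (Poly.valBits h1).congr fun a => ?_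
  have h2 : (n a).bits.map (fun _ => false) = List.replicate (n a).size false := by
    rw [List.eq_replicate_iff]
    refine ⟨?_, ?_⟩
    · rw [List.length_map, Nat.size_eq_bits_len]
    · intro b hb
      rw [List.mem_map] at hb
      obtain ⟨_, _, rfl⟩ := hb
      rfl
  rw [h2, valB_replicate_false]
  simp

theorem pow_size_le (n : ℕ) : 2 ^ n.size ≤ 2 * n + 1 := by
  rcases Nat.eq_zero_or_pos n with h | h
  · subst h; simp
  · have h1 : n.size ≠ 0 := by
      rw [Ne, Nat.size_eq_zero]; omega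
    obtain ⟨k, hk⟩ := Nat.exists_eq_succ_of_ne_zero h1
    have h2 : 2 ^ k ≤ n := by
      rw [← Nat.lt_size]; omega
    rw [hk, pow_succ]
    omega

theorem poly_hbit {a b : α → ℕ} (ha : Poly a) (hb : Poly b) :
    Poly (fun x => hbit (a x) (b x)) := by
  have h1 : Poly (fun x => ((a x).bits.zip (b x).bits).map
      (fun p : Bool × Bool => p.1 && p.2)) :=
    Poly.map (F := fun _ p => p.1 && p.2) (Poly.zip (Poly.natBits ha) (Poly.natBits hb))
      (Poly.and (Poly.fst (Poly.snd Poly.id)) (Poly.snd (Poly.snd Poly.id)))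
  have h2 : Poly (fun x => (((a x).bits.zip (b x).bits).map
      (fun p : Bool × Bool => p.1 && p.2)).foldl xor false) :=
    Poly.foldl (F := fun _ s b => xor s b) h1 (Poly.const false)
      (Poly.xor (Poly.fst (Poly.snd Poly.id)) (Poly.snd (Poly.snd Poly.id))) (Polynomial.C 3)
      (fun a k _ => by
        rw [Polynomial.eval_C]
        exact sz_bool_le _)
  refine h2.congr fun x => ?_
  unfold hbit
  congr 1
  rw [List.zip, List.map_zipWith]

theorem poly_had {a b : α → ℕ} (ha : Poly a) (hb : Poly b) :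
    Poly (fun x => had (a x) (b x)) := by
  have h1 := Poly.decide_eq (Poly.mod ha (Poly.const 2)) (Poly.mod hb (Poly.const 2))
  have h2 : Poly (fun x => decide (hbit (a x / 2) (b x / 2) = true)) :=
    Poly.decide_bool (poly_hbit (Poly.div ha (Poly.const 2)) (Poly.div hb (Poly.const 2)))
  exact Poly.imul (Poly.ite h1 (Poly.const 1) (Poly.const (-1)))
    (Poly.ite h2 (Poly.const (-1)) (Poly.const 1))

theorem poly_wtR {W : α → ℕ} {r : α → RName} (hW : Poly W) (hr : Poly r) :
    Poly (fun a => wtR (W a) (r a)) :=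
  Poly.ite (Poly.decide_eq (Poly.fst hr) (Poly.const 0)) hW (Poly.const 1)

theorem poly_wtC {W Q : α → ℕ} {c : α → Col} (hW : Poly W) (hQ : Poly Q) (hc : Poly c) :
    Poly (fun a => wtC (W a) (Q a) (c a)) :=
  Poly.ite (Poly.decide_lt (Poly.fst hc) (Poly.const 3)) (Poly.mul hW hQ)
    (Poly.ite (Poly.decide_eq (Poly.fst hc) (Poly.const 4)) (Poly.const 1) hQ)

theorem poly_msk {r : α → RName} {c : α → Col} (hr : Poly r) (hc : Poly c) :
    Poly (fun a => msk (r a) (c a)) :=
  Poly.ite (Poly.decide_or (Poly.decide_eq (Poly.fst hr) (Poly.const 0))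
    (Poly.decide_lt (Poly.fst hc) (Poly.const 3))) (Poly.const 1) (Poly.const 4)

theorem poly_f1 (hE : Poly (fun x : RName × Col => ent1 x.1 x.2)) {W Q a b : α → ℕ}
    {r : α → RName} {c : α → Col} (hW : Poly W) (hQ : Poly Q) (hr : Poly r) (hc : Poly c)
    (ha : Poly a) (hb : Poly b) : Poly (fun x => f1 (W x) (Q x) (r x) (c x) (a x) (b x)) := by
  have hw := Poly.mul (poly_wtR hW hr) (poly_wtC hW hQ hc)
  have he : Poly (fun x => ent1 (r x) (c x)) := hE.comp (Poly.pair hr hc)
  have h1 : Poly (fun x => ((((wtR (W x) (r x) * wtC (W x) (Q x) (c x) * 8 * msk (r x) (c x) : ℕ)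
      : ℤ) * had (a x) (b x) : ℤ) : ℚ)) :=
    poly_intToRat (Poly.imul (Poly.natCast (Poly.mul (Poly.mul hw (Poly.const 8))
      (poly_msk hr hc))) (poly_had ha hb))
  have h2 : Poly (fun p : α × ℤ => ((((wtR (W p.1) (r p.1) * wtC (W p.1) (Q p.1) (c p.1) : ℕ) : ℤ)
      * p.2 : ℤ) : ℚ)) :=
    poly_intToRat (Poly.imul (Poly.natCast (hw.comp (Poly.fst Poly.id))) (Poly.snd Poly.id))
  refine (Poly.optCases (h := fun x q => ((((wtR (W x) (r x) * wtC (W x) (Q x) (c x) : ℕ) : ℤ)
      * q : ℤ) : ℚ)) he h1 h2).congr fun x => ?_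
  unfold f1
  cases ent1 (r x) (c x) <;> rfl

theorem poly_msum (hE : Poly (fun x : RName × Col => ent1 x.1 x.2)) {W Q : α → ℕ}
    {R : α → List RName} {C : α → List Col} (hW : Poly W) (hQ : Poly Q) (hR : Poly R)
    (hC : Poly C) : Poly (fun x => msum (W x) (Q x) (R x) (C x)) := by
  refine Poly.sum (Poly.flatMap (F := fun x r => (C x).map fun c =>
    if ent1 r c = none then wtR (W x) r * wtC (W x) (Q x) c * msk r c else 0) hR ?_)
  refine Poly.map (F := fun (p : α × RName) c =>
    if ent1 p.2 c = none then wtR (W p.1) p.2 * wtC (W p.1) (Q p.1) c * msk p.2 c else 0)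
    (hC.comp (Poly.fst Poly.id)) ?_
  have hr : Poly (fun p : (α × RName) × Col => p.1.2) := Poly.snd (Poly.fst Poly.id)
  have hc : Poly (fun p : (α × RName) × Col => p.2) := Poly.snd Poly.id
  have hx : Poly (fun p : (α × RName) × Col => p.1.1) := Poly.fst (Poly.fst Poly.id)
  exact Poly.ite (Poly.decide_eq (hE.comp (Poly.pair hr hc)) (Poly.const none))
    (Poly.mul (Poly.mul (poly_wtR (hW.comp hx) hr) (poly_wtC (hW.comp hx) (hQ.comp hx) hc))
      (poly_msk hr hc)) (Poly.const 0)

end P1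

open P1 in
/-- LR-P1 -/
theorem t_P1 (h1 : S_PB) (h2 : S_PC) : S_P1 := by
  obtain ⟨hrows, hcols, -, hE⟩ := h2
  have hS : Poly (fun S : List ER.Con => S) := Poly.id
  have un := upoly_n1 hS
  have hR : Poly (fun S => R1 S) := hrows _ _ un
  have hC : Poly (fun S => C1 S) := by
    refine Poly.append (hcols _ _ _ un (poly_prog hS)) ?_
    exact Poly.cons (Poly.pair (Poly.const 4) (Poly.pair (Poly.const _)
      (Poly.cons (Poly.pair (Poly.const 3) (Poly.sub un.toPoly (Poly.const 1)))
        (Poly.const [])))) (Poly.const [])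
  have hN : UPoly (fun S => N1 S) := UPoly.mul (UPoly.length hR) (UPoly.length hC)
  have hm0 : UPoly (fun S => 2 ^ 19 * (N1 S * N1 S)) :=
    UPoly.mul (UPoly.const (2 ^ 19)) (UPoly.mul hN hN)
  have hm : UPoly (fun S => m1 S) := by
    refine UPoly.of_le (n := fun S => 2 * (2 ^ 19 * (N1 S * N1 S)) + 1)
      ((poly_pow_size hm0.toPoly).congr fun S => ?_)
      (UPoly.add (UPoly.mul (UPoly.const 2) hm0) (UPoly.const 1)) fun S => ?_
    · rw [m1, pow_two (N1 S)]
    · rw [m1, pow_two (N1 S)]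
      exact pow_size_le _
  have hQ : Poly (fun S => Q1 S) :=
    poly_two_pow (UPoly.add (UPoly.mul (UPoly.const 2) un) (UPoly.const 20))
  have hW : Poly (fun S => W1 S) := by
    have hNp := hN.toPoly
    refine (Poly.mul (Poly.mul (Poly.mul (Poly.const (2 ^ 20)) (Poly.mul (Poly.mul hNp hNp) hNp))
      hm.toPoly) hQ).congr fun S => ?_
    rw [W1, pow_three' (N1 S)]
  refine Poly.pair ?_ (Poly.pair (Poly.const 3) (poly_natRat ?_))
  · refine h1 _ _ _ _ (fun S => f1 (W1 S) (Q1 S)) _ _ hm hR hC ?_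
    exact poly_f1 hE (hW.comp (Poly.fst Poly.id)) (hQ.comp (Poly.fst Poly.id))
      (Poly.fst (Poly.snd Poly.id)) (Poly.fst (Poly.snd (Poly.snd Poly.id)))
      (Poly.fst (Poly.snd (Poly.snd (Poly.snd Poly.id))))
      (Poly.snd (Poly.snd (Poly.snd (Poly.snd Poly.id))))
  · refine (Poly.mul (Poly.mul (Poly.const 8) (Poly.add (poly_msum hE hW hQ hR hC)
      (Poly.const 1))) (Poly.mul hm.toPoly hm.toPoly)).congr fun S => ?_
    rw [pow_two (m1 S)]

end Pool.Agent.NPC.R537LR
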