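import Pool.Agent.R684.VG.Stm

/-!
# VG-WRU (helper657 for helper684): universal property of `B * ℤ`
-/

set_option autoImplicit false

namespace Pool.Agent.R684.VG

open Pool.Agent.H919R3.Grp

theorem t_WRU : S_WRU := by
  intro B _ E _ f z
  refine ⟨SemidirectProduct.lift (FreeGroup.lift fun b => f b * z * (f b)⁻¹) f ?_, ?_, ?_⟩
  · intro b
    ext c
    simp [phi, mul_assoc]
  · intro b
    simp
  · simp [xx]

end Pool.Agent.R684.VG
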